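import Pool.Agent.H34.EY.Box

/-!
# [H34 EY DIL] THEOREM E with a bounded dilation, the exceptional set smaller than any function of the bound

For every function `F` there are `M₀`, .. such that for some `m₀ ≤ M₀` and some scale `z` all but `F m₀ * z ^ k` of the
increasing tuples `a` up to `z` have a good multiple `m a`, `m ≤ m₀`.
-/

set_option autoImplicit false

namespace Pool.Agent.H34.EY

open Finset Filter Pool.Agent.H62.EX

private theorem dir_all (k : ℕ) : ∃ Mq : ℕ → ℕ, (∀ q, 1 ≤ Mq q) ∧ ∀ q, 1 ≤ q → ∀ (α : Fin q → ℝ) (a : Fin k → ℕ),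
    ∃ m : ℕ, 1 ≤ m ∧ m ≤ Mq q ∧ ∀ j i, ∃ z : ℤ, |((m : ℝ) * a j) * α i - z| * q ≤ 1 := by
  have h : ∀ q : ℕ, ∃ M : ℕ, 1 ≤ M ∧ (1 ≤ q → ∀ (α : Fin q → ℝ) (a : Fin k → ℕ),
      ∃ m : ℕ, 1 ≤ m ∧ m ≤ M ∧ ∀ j i, ∃ z : ℤ, |((m : ℝ) * a j) * α i - z| * q ≤ 1) := by
    intro q
    rcases Nat.eq_zero_or_pos q with hq | hq
    · exact ⟨1, le_rfl, fun h => absurd h (by omega)⟩
    have hqr : (0 : ℝ) < q := by exact_mod_cast hq
    obtain ⟨M, hM, h⟩ := Pool.Agent.H53.DL.dirichlet (Fin k × Fin q) (1 / q) (by positivity)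
    refine ⟨M, hM, fun _ α a => ?_⟩
    obtain ⟨m, hm1, hm2, hm3⟩ := h (fun p => (a p.1 : ℝ) * α p.2)
    refine ⟨m, hm1, hm2, fun j i => ?_⟩
    obtain ⟨z, hz⟩ := hm3 (j, i)
    refine ⟨z, ?_⟩
    rw [lt_div_iff₀ hqr] at hz
    rw [mul_assoc]
    exact hz.le
  choose Mq h1 h2 using h
  exact ⟨Mq, h1, h2⟩

open Classical in
/-- **THEOREM E**, bounded dilation -/
def ThmDil : Prop := ∀ k r : ℕ, 1 ≤ k → ∃ D : ℕ, ∀ W s₀ : ℕ, 0 < W → Nat.Coprime s₀ W →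
  ∀ F : ℕ → ℝ, (∀ m, 0 < F m) → ∃ (M₀ : ℕ) (c d B : ℝ), 0 < c ∧ 0 < d ∧
  ∀ (χ : ℕ → Fin r) (M : ℕ) (t : ℝ), t ≤ 1 → B ≤ t * Real.log M →
    ∃ m₀ z : ℕ, m₀ ≤ M₀ ∧ c * (t * Real.log M) ≤ z ∧ (z : ℝ) ≤ t * Real.log M ∧
      (((Fintype.piFinset (fun _ : Fin k => Icc 1 z)).filter (fun a => StrictMono a ∧
        ¬ ∃ m : ℕ, 1 ≤ m ∧ m ≤ m₀ ∧ ∀ G : Finset (Fin k), OnePair G → ∃ q : Fin r,
          d * t ^ D * M ≤ (t * Real.log M) ^ k * ({n : ℕ | n < M ∧ Pat W s₀ χ q G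
            (fun j => m * (Fin.cons 0 a : Fin (k + 1) → ℕ) j) (Nat.nth Nat.Prime n)}.ncard : ℝ))).card : ℝ) ≤
        F m₀ * (z : ℝ) ^ k

theorem thm_dil : ThmDil := by
  classical
  intro k r hk
  obtain ⟨D, hD⟩ := thm_box k r hk
  refine ⟨D, fun W s₀ hW hs₀ F hF => ?_⟩
  obtain ⟨Mq, hM1, hM2⟩ := dir_all k
  obtain ⟨Q, c, d, B, hc, hd, h⟩ := hD W s₀ hW hs₀ (fun q => F (Mq q) / (Mq q * (2 * (q + 1) * Mq q) ^ k)) (fun q => by
    have h1 : (0 : ℝ) < Mq q := by exact_mod_cast hM1 q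
    have h2 := hF (Mq q)
    positivity)
  obtain ⟨m₁, hm₁⟩ : ∃ m₁ : ℕ, m₁ = ∑ q ∈ range (Q + 1), 2 * (q + 1) * Mq q := ⟨_, rfl⟩
  have hle : ∀ q ≤ Q, 2 * (q + 1) * Mq q ≤ m₁ := by
    intro q hq
    rw [hm₁]
    exact single_le_sum (f := fun q => 2 * (q + 1) * Mq q) (fun _ _ => Nat.zero_le _)
      (mem_range.2 (Nat.lt_succ_of_le hq))
  have hm₁1 : 1 ≤ m₁ := by
    have h1 := hle 0 (Nat.zero_le _)
    have h2 := hM1 0
    omega
  have hm₁r : (1 : ℝ) ≤ m₁ := by exact_mod_cast hm₁1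
  refine ⟨m₁, c / m₁, d, max B (m₁ / c), by positivity, hd, fun χ M t ht hB => ?_⟩
  obtain ⟨L, q, α, hL1, hL2, hq1, hqQ, hcard⟩ := h χ M t ht ((le_max_left _ _).trans hB)
  generalize hy : t * Real.log (M : ℝ) = y at *
  have hy1 : m₁ / c ≤ y := (le_max_right _ _).trans hB
  have hm₁L : m₁ ≤ L := by
    rw [div_le_iff₀ hc] at hy1
    have : (m₁ : ℝ) ≤ L := by linarith
    exact_mod_cast this
  have hMq := hM1 q
  have hMr : (0 : ℝ) < Mq q := by exact_mod_cast hMq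
  have hqr : (0 : ℝ) < q := by exact_mod_cast hq1
  have hqM := hle q hqQ
  obtain ⟨w, hw⟩ : ∃ w : ℕ, w = q * Mq q := ⟨_, rfl⟩
  have hw0 : 0 < w := by rw [hw]; exact Nat.mul_pos hq1 hMq
  have hwle : 2 * w ≤ m₁ := by
    refine le_trans ?_ hqM
    rw [hw]
    nlinarith
  obtain ⟨z, hzd⟩ : ∃ z : ℕ, z = L / w := ⟨_, rfl⟩
  have hz1 : w * z ≤ L := by rw [hzd]; exact Nat.mul_div_le L w
  have hz2 : L < w * (z + 1) := by
    rw [hzd]
    exact Nat.lt_mul_div_succ L hw0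
  have hzpos : 1 ≤ z := by
    by_contra hcon
    have : z = 0 := by omega
    rw [this] at hz2
    omega
  have hz3 : L ≤ 2 * w * z := by nlinarith
  have hzL : z ≤ L := by nlinarith
  refine ⟨Mq q, z, ?_, ?_, ?_, ?_⟩
  · refine le_trans ?_ hqM
    nlinarith
  · rw [div_mul_eq_mul_div, div_le_iff₀ (by positivity)]
    refine hL1.trans ?_
    have h2 : L ≤ z * m₁ := by nlinarith
    exact_mod_cast h2
  · refine le_trans ?_ hL2
    exact_mod_cast hzL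
  obtain ⟨A, hA⟩ : ∃ A : Finset (Fin k → ℕ), A = (Fintype.piFinset (fun _ : Fin k => Icc 1 z)).filter
    (fun a : Fin k → ℕ => StrictMono a ∧ ¬ ∃ m : ℕ, 1 ≤ m ∧ m ≤ Mq q ∧ ∀ G : Finset (Fin k), OnePair G → ∃ q : Fin r,
          d * t ^ D * M ≤ y ^ k * ({n : ℕ | n < M ∧ Pat W s₀ χ q G
            (fun j => m * (Fin.cons 0 a : Fin (k + 1) → ℕ) j) (Nat.nth Nat.Prime n)}.ncard : ℝ)) := ⟨_, rfl⟩
  rw [← hA]
  have hch := fun a : Fin k → ℕ => hM2 q hq1 α a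
  choose μ hμ1 hμ2 hμ3 using hch
  obtain ⟨B', hB'⟩ : ∃ B' : Finset (Fin k → ℕ), B' = (Fintype.piFinset (fun _ : Fin k => Icc 1 L)).filter
    (fun a : Fin k → ℕ => StrictMono a ∧
        (∀ j, Bo q α L (a j)) ∧ ¬ ∀ G : Finset (Fin k), OnePair G → ∃ q' : Fin r,
          d * t ^ D * M ≤ y ^ k * ({n : ℕ | n < M ∧ Pat W s₀ χ q' G
            (Fin.cons 0 a : Fin (k + 1) → ℕ) (Nat.nth Nat.Prime n)}.ncard : ℝ)) := ⟨_, rfl⟩
  rw [← hB'] at hcard
  have hmaps : ∀ a ∈ A, (fun j => μ a * a j) ∈ B' := by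
    intro a ha
    rw [hA, mem_filter, Fintype.mem_piFinset] at ha
    obtain ⟨ha1, ha2, ha3⟩ := ha
    have hb1 : ∀ j, μ a * a j * q ≤ L := by
      intro j
      have h2 := (mem_Icc.1 (ha1 j)).2
      calc μ a * a j * q ≤ Mq q * z * q := Nat.mul_le_mul_right _ (Nat.mul_le_mul (hμ2 a) h2)
        _ = w * z := by rw [hw]; ring
        _ ≤ L := hz1
    rw [hB', mem_filter, Fintype.mem_piFinset]
    refine ⟨fun j => ?_, ?_, fun j => ⟨?_, fun i => ?_⟩, fun hcon => ha3 ⟨μ a, hμ1 a, hμ2 a, ?_⟩⟩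
    · rw [mem_Icc]
      have h1 := (mem_Icc.1 (ha1 j)).1
      refine ⟨Nat.mul_pos (hμ1 a) h1, le_trans ?_ (hb1 j)⟩
      exact Nat.le_mul_of_pos_right _ hq1
    · intro i j hij
      exact Nat.mul_lt_mul_of_pos_left (ha2 hij) (hμ1 a)
    · have h2 : ((μ a * a j * q : ℕ) : ℝ) ≤ L := by exact_mod_cast hb1 j
      push_cast at h2 ⊢
      rw [abs_of_nonneg (by positivity)]
      exact h2
    · obtain ⟨n, hn⟩ := hμ3 a j i
      refine ⟨n, ?_⟩
      push_cast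
      exact hn
    · intro G hG
      obtain ⟨q', hq'⟩ := hcon G hG
      refine ⟨q', ?_⟩
      have e1 : (fun j => μ a * (Fin.cons 0 a : Fin (k + 1) → ℕ) j) =
          (Fin.cons 0 (fun j => μ a * a j) : Fin (k + 1) → ℕ) := by
        funext i
        refine Fin.cases ?_ (fun j => ?_) i
        · simp
        · rw [Fin.cons_succ, Fin.cons_succ]
      rw [e1]
      exact hq'
  -- the fibres
  have hcardA : A.card ≤ Mq q * B'.card := by
    have h2 : (A.image (fun a j => μ a * a j)).card ≤ B'.card := by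
      refine card_le_card fun b hb => ?_
      obtain ⟨a, ha, rfl⟩ := mem_image.1 hb
      exact hmaps a ha
    refine le_trans ?_ (Nat.mul_le_mul_left _ h2)
    refine card_le_mul_card_image A (Mq q) fun b _ => ?_
    have h3 : (A.filter (fun a => (fun j => μ a * a j) = b)).card ≤ (Icc 1 (Mq q)).card := by
      refine card_le_card_of_injOn μ ?_ ?_
      · intro a _
        rw [mem_coe, mem_Icc]
        exact ⟨hμ1 a, hμ2 a⟩
      · intro a ha a' ha' haa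
        rw [mem_coe, mem_filter] at ha ha'
        funext j
        have e1 := congrFun ha.2 j
        have e2 := congrFun ha'.2 j
        rw [← e2, haa] at e1
        exact Nat.eq_of_mul_eq_mul_left (hμ1 a') e1
    rw [Nat.card_Icc] at h3
    omega
  have hcardR : (A.card : ℝ) ≤ Mq q * B'.card := by exact_mod_cast hcardA
  have hLz : (L : ℝ) ≤ 2 * (q + 1) * Mq q * z := by
    have h2 : L ≤ 2 * (q + 1) * Mq q * z := by
      refine hz3.trans (Nat.mul_le_mul_right _ ?_)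
      rw [hw]
      nlinarith
    exact_mod_cast h2
  have hLk : (L : ℝ) ^ k ≤ (2 * (q + 1) * Mq q) ^ k * (z : ℝ) ^ k := by
    rw [← mul_pow]
    exact pow_le_pow_left₀ (Nat.cast_nonneg _) hLz k
  have hP : (0 : ℝ) < (2 * (q + 1) * Mq q) ^ k := by positivity
  have hFq := hF (Mq q)
  calc (A.card : ℝ) ≤ Mq q * B'.card := hcardR
    _ ≤ Mq q * (F (Mq q) / (Mq q * (2 * (q + 1) * Mq q) ^ k) * (L : ℝ) ^ k) :=
        mul_le_mul_of_nonneg_left hcard hMr.le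
    _ = F (Mq q) / (2 * (q + 1) * Mq q) ^ k * (L : ℝ) ^ k := by
        field_simp
    _ ≤ F (Mq q) / (2 * (q + 1) * Mq q) ^ k * ((2 * (q + 1) * Mq q) ^ k * (z : ℝ) ^ k) :=
        mul_le_mul_of_nonneg_left hLk (by positivity)
    _ = F (Mq q) * (z : ℝ) ^ k := by
        field_simp

end Pool.Agent.H34.EY
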