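import Mathlib

/-!
# [H34 EY INFD] Diagonal choice of a subsequence
-/

set_option autoImplicit false

namespace Pool.Agent.H34.EY

open Filter Topology
open scoped ENNReal

/-- countably many sequences in `[0, ∞]` converge along an infinite subset of a given infinite set -/
theorem diag {ι : Type} [Countable ι] (f : ℕ → ι → ℝ≥0∞) (𝓜₀ : Set ℕ) (h : 𝓜₀.Infinite) :
    ∃ 𝓜 : Set ℕ, 𝓜 ⊆ 𝓜₀ ∧ 𝓜.Infinite ∧ ∃ ℓ : ι → ℝ≥0∞, ∀ i, ∀ U ∈ 𝓝 (ℓ i), ∃ M₁ : ℕ, ∀ M ∈ 𝓜, M₁ ≤ M →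
      f M i ∈ U := by
  obtain ⟨e, he, he0⟩ : ∃ e : ℕ → ℕ, StrictMono e ∧ ∀ n, e n ∈ 𝓜₀ :=
    ⟨Nat.nth (· ∈ 𝓜₀), Nat.nth_strictMono h, fun n => Nat.nth_mem_of_infinite h n⟩
  obtain ⟨ℓ, φ, hφ, hℓ⟩ := CompactSpace.tendsto_subseq (fun n : ℕ => f (e n))
  refine ⟨Set.range (fun n => e (φ n)), ?_, Set.infinite_range_of_injective (he.comp hφ).injective, ℓ, ?_⟩
  · rintro _ ⟨n, rfl⟩
    exact he0 _
  · intro i U hU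
    have h1 : Tendsto (fun n => f (e (φ n)) i) atTop (𝓝 (ℓ i)) := (continuous_apply i).continuousAt.tendsto.comp hℓ
    obtain ⟨n0, hn0⟩ := eventually_atTop.1 (h1.eventually hU)
    refine ⟨e (φ n0), ?_⟩
    rintro _ ⟨n, rfl⟩ hn
    exact hn0 n ((he.comp hφ).le_iff_le.1 hn)

/-- a limit different from `0` -/
theorem lim_pos {a : ℝ≥0∞} (ha : a ≠ 0) : ∃ c : ℝ, 0 < c ∧ {x : ℝ≥0∞ | ENNReal.ofReal c < x} ∈ 𝓝 a := by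
  obtain ⟨r, hr0, hr⟩ := ENNReal.lt_iff_exists_nnreal_btwn.1 (pos_iff_ne_zero.2 ha)
  refine ⟨r, by exact_mod_cast hr0, ?_⟩
  rw [ENNReal.ofReal_coe_nnreal]
  exact Ioi_mem_nhds hr

/-- the limit `0` -/
theorem lim_zero {c : ℝ} (hc : 0 < c) : {x : ℝ≥0∞ | x < ENNReal.ofReal c} ∈ 𝓝 (0 : ℝ≥0∞) :=
  Iio_mem_nhds (ENNReal.ofReal_pos.2 hc)

end Pool.Agent.H34.EY
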