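import Pool.Agent.H62.EX.Df
import Pool.Agent.H74.BT.Trees
import Pool.Agent.H74.BT.FinalG

/-!
# [H34 EY INFT] Trees of bad tuples in one residue class

`𝓑 a`, `a ∈ Λ`, finitely many sets of tuples of differences (increasing).  If the union has positive upper Banach density in every
Bohr set, then every set of positive upper Banach density contains trees of bad tuples, of every depth and with clusters of
every size; in particular in every residue class (`trees_nat`).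
-/

set_option autoImplicit false

namespace Pool.Agent.H34.EY

open Finset Pool.Agent.H62.EX Pool.Agent.H74.BT Pool.Agent.H92.BH

/-- differences to the first element -/
def dfz {k : ℕ} (y : Fin (k + 1) → ℤ) : Fin k → ℤ := fun j => y j.succ - y 0

/-- trees of bad tuples of integers -/
def TrZ {k s : ℕ} {Λ : Type} (pos : Λ → Fin (k + 1)) (𝓑 : Λ → Set (Fin k → ℤ)) :
    (j : ℕ) → (Nd k j → Fin s → ℤ) → Prop
  | 0, _ => True
  | j + 1, y => (∃ a : Λ, ∀ (v : ℤ) (u : Fin k → ℤ), (∃ l, y rt l = v) → (∀ i, ∃ ν l, y (sn i ν) l = u i) →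
      dfz ((pos a).insertNth v u) ∈ 𝓑 a) ∧ ∀ i : Fin k, TrZ pos 𝓑 j (fun ν => y (sn i ν))

theorem ins_sub {k : ℕ} (p : Fin (k + 1)) (v t : ℤ) (u : Fin k → ℤ) (i : Fin (k + 1)) :
    (p.insertNth (v - t) (fun i => u i - t) : Fin (k + 1) → ℤ) i = (p.insertNth v u : Fin (k + 1) → ℤ) i - t := by
  refine Fin.succAboveCases p ?_ (fun j => ?_) i
  · rw [Fin.insertNth_apply_same, Fin.insertNth_apply_same]
  · rw [Fin.insertNth_apply_succAbove, Fin.insertNth_apply_succAbove]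

theorem trz_add {k s : ℕ} {Λ : Type} (pos : Λ → Fin (k + 1)) (𝓑 : Λ → Set (Fin k → ℤ)) (t : ℤ) : ∀ (j : ℕ)
    (y : Nd k j → Fin s → ℤ), TrZ pos 𝓑 j y → TrZ pos 𝓑 j (fun ν l => y ν l + t) := by
  intro j
  induction j with
  | zero => intro y _; trivial
  | succ j ih =>
    intro y hy
    obtain ⟨⟨a, ha⟩, h2⟩ := hy
    refine ⟨⟨a, fun v u hv hu => ?_⟩, fun i => ih _ (h2 i)⟩
    have h3 := ha (v - t) (fun i => u i - t) (by
      obtain ⟨l, hl⟩ := hv
      exact ⟨l, by rw [← hl]; ring⟩) (by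
      intro i
      obtain ⟨ν, l, hl⟩ := hu i
      exact ⟨ν, l, by rw [← hl]; ring⟩)
    have h4 : dfz ((pos a).insertNth (v - t) (fun i => u i - t)) = dfz ((pos a).insertNth v u) := by
      funext i
      unfold dfz
      rw [ins_sub, ins_sub]
      ring
    rw [h4] at h3
    exact h3

/-- `X` contains a tree -/
def PT {k : ℕ} (s : ℕ) {Λ : Type} (pos : Λ → Fin (k + 1)) (𝓑 : Λ → Set (Fin k → ℤ)) (j : ℕ) (X : Finset ℤ) : Prop :=
  s ≤ X.card ∧ ∃ y : Nd k j → Fin s → ℤ, (∀ ν l, y ν l ∈ X) ∧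
    (∀ ν l ν' l', y ν l = y ν' l' → ν = ν' ∧ l = l') ∧ TrZ pos 𝓑 j y

theorem pt_add {k s : ℕ} {Λ : Type} {pos : Λ → Fin (k + 1)} {𝓑 : Λ → Set (Fin k → ℤ)} {j : ℕ} (X : Finset ℤ) (t : ℤ)
    (h : PT s pos 𝓑 j X) : PT s pos 𝓑 j (X.image (fun x => x + t)) := by
  classical
  obtain ⟨h1, y, h2, h3, h4⟩ := h
  refine ⟨?_, fun ν l => y ν l + t, fun ν l => mem_image.2 ⟨_, h2 ν l, rfl⟩, fun ν l ν' l' h => ?_, trz_add pos 𝓑 t j y h4⟩
  · rw [card_image_of_injective _ (fun a b hab => by simpa using hab)]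
    exact h1
  · refine h3 ν l ν' l' ?_
    have h : y ν l + t = y ν' l' + t := h
    linarith

theorem ubd_card {S : Set ℤ} (hS : UBD S) (s : ℕ) : ∃ X : Finset ℤ, s ≤ X.card ∧ ∀ x ∈ X, x ∈ S := by
  classical
  obtain ⟨δ, hδ, h⟩ := hS
  obtain ⟨L, hL, hL0, a, ha⟩ := h ⌈(s : ℝ) / δ⌉₊
  have h1 : (s : ℝ) ≤ δ * L := by
    have h2 : (s : ℝ) / δ ≤ L := (Nat.le_ceil _).trans (by exact_mod_cast hL)
    rw [div_le_iff₀ hδ] at h2
    linarith
  have h3 : s ≤ cnt S a L := by exact_mod_cast h1.trans ha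
  unfold cnt at h3
  obtain ⟨X, hX, hXc⟩ := Finset.exists_subset_card_eq h3
  exact ⟨X, hXc.ge, fun x hx => (Finset.mem_filter.1 (hX hx)).2⟩

theorem cons_dfz {k : ℕ} (y : Fin (k + 1) → ℤ) (i : Fin (k + 1)) :
    (Fin.cons 0 (dfz y) : Fin (k + 1) → ℤ) i = y i - y 0 := by
  refine Fin.cases ?_ (fun j => ?_) i
  · simp
  · simp [dfz]

/-- all nodes of a tree of depth `j + 1` -/
theorem nd_cases {k j : ℕ} (ν : Nd k (j + 1)) : ν = rt ∨ ∃ i ν', ν = sn i ν' := by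
  rcases ν with _ | ⟨i, ν'⟩
  · exact Or.inl rfl
  · exact Or.inr ⟨i, ν', rfl⟩

theorem trees_inf {k s : ℕ} (hs : 1 ≤ s) {Λ : Type} [Fintype Λ] (pos : Λ → Fin (k + 1)) (𝓑 : Λ → Set (Fin k → ℤ))
    (hmono : ∀ a, ∀ b ∈ 𝓑 a, StrictMono (Fin.cons 0 b : Fin (k + 1) → ℤ))
    (H : ∀ (J : ℕ) (α : Fin J → ℝ) (ρ : ℝ), 0 < ρ →
      UBDm ({x : Fin (k + 1) → ℤ | ∃ a, dfz x ∈ 𝓑 a} ∩ near (k + 1) α ρ)) (j : ℕ) :
    ∀ S : Set ℤ, UBD S → ∃ X : Finset ℤ, PT s pos 𝓑 j X ∧ ∀ x ∈ X, x ∈ S := by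
  classical
  induction j with
  | zero =>
    intro S hS
    obtain ⟨X, hX1, hX2⟩ := ubd_card hS s
    exact ⟨X, ⟨hX1, fun ν => (ν : Empty).elim, fun ν => (ν : Empty).elim, fun ν => (ν : Empty).elim, trivial⟩, hX2⟩
  | succ j ih =>
    intro S hS
    obtain ⟨J, α, ρ, γ, hρ, hγ, hcor⟩ := corr_many (m := k + 1) (by omega) hS
    obtain ⟨δ, hδ, hδX⟩ := H J α ρ hρ
    obtain ⟨X₁, hX₁⟩ := hcor δ hδ
    obtain ⟨X₂, hX₂⟩ := prod (P := PT s pos 𝓑 j)
      (fun ε hε => comp (P := PT s pos 𝓑 j) (fun X t hX => pt_add X t hX) ih hε) (k + 1)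
      (γ * δ / (Fintype.card Λ + 1)) (by positivity)
    obtain ⟨X, hX, hXpos, z, hz⟩ := hδX (max X₁ X₂)
    obtain ⟨𝒞, h𝒞⟩ : ∃ 𝒞 : Finset (Fin (k + 1) → ℤ), 𝒞 = (cube z X).filter
      (fun x => x ∈ {x : Fin (k + 1) → ℤ | ∃ a, dfz x ∈ 𝓑 a} ∩ near (k + 1) α ρ) := ⟨_, rfl⟩
    have hz' : δ * (X : ℝ) ^ (k + 1) ≤ (𝒞.card : ℝ) := by
      refine hz.trans (le_of_eq ?_)
      rw [h𝒞]
      exact congrArg _ (congrArg _ (by ext x; simp only [mem_filter]))
    obtain ⟨t, ht⟩ := hX₁ X ((le_max_left _ _).trans hX) z 𝒞 (h𝒞 ▸ Finset.filter_subset _ _)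
      (fun C hC => by
        rw [h𝒞] at hC
        exact (Finset.mem_filter.1 hC).2.2) hz'
    obtain ⟨E, hE⟩ : ∃ E : Finset (Fin (k + 1) → ℤ), E = 𝒞.filter (fun C => ∀ i, t + C i ∈ S) := ⟨_, rfl⟩
    have hEc : γ * δ * (X : ℝ) ^ (k + 1) ≤ (E.card : ℝ) := by
      rw [hE]
      refine le_trans ?_ (ht.trans (le_of_eq ?_))
      · rw [mul_assoc]
        exact mul_le_mul_of_nonneg_left hz' hγ.le
      · exact congrArg _ (congrArg _ (by ext x; simp only [mem_filter]))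
    have hX0 : (0 : ℝ) < X := by exact_mod_cast hXpos
    -- one label
    obtain ⟨a, ha⟩ : ∃ a : Λ, γ * δ / (Fintype.card Λ + 1) * (X : ℝ) ^ (k + 1) ≤
        ((E.filter (fun x => dfz x ∈ 𝓑 a)).card : ℝ) := by
      by_contra hcon
      push Not at hcon
      have h1 : E ⊆ univ.biUnion (fun a : Λ => E.filter (fun x => dfz x ∈ 𝓑 a)) := by
        intro x hx
        have hx' := hx
        rw [hE, mem_filter, h𝒞, mem_filter] at hx'
        obtain ⟨a, ha⟩ := hx'.1.2.1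
        exact mem_biUnion.2 ⟨a, mem_univ a, mem_filter.2 ⟨hx, ha⟩⟩
      have h2 : (E.card : ℝ) ≤ ∑ a : Λ, ((E.filter (fun x => dfz x ∈ 𝓑 a)).card : ℝ) := by
        exact_mod_cast (card_le_card h1).trans card_biUnion_le
      have h3 : ∑ a : Λ, ((E.filter (fun x => dfz x ∈ 𝓑 a)).card : ℝ) ≤
          ∑ _a : Λ, γ * δ / (Fintype.card Λ + 1) * (X : ℝ) ^ (k + 1) := sum_le_sum fun a _ => (hcon a).le
      rw [sum_const, card_univ, nsmul_eq_mul] at h3
      have h4 : (Fintype.card Λ : ℝ) * (γ * δ / (Fintype.card Λ + 1) * (X : ℝ) ^ (k + 1)) <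
          γ * δ * (X : ℝ) ^ (k + 1) := by
        have h5 : γ * δ * (X : ℝ) ^ (k + 1) = ((Fintype.card Λ : ℝ) + 1) *
            (γ * δ / (Fintype.card Λ + 1) * (X : ℝ) ^ (k + 1)) := by
          field_simp
        rw [h5]
        refine mul_lt_mul_of_pos_right (by linarith) (by positivity)
      linarith
    obtain ⟨Y, hY, hYE⟩ := hX₂ X ((le_max_right _ _).trans hX) hXpos z (E.filter (fun x => dfz x ∈ 𝓑 a))
      (by
        rw [hE, h𝒞]
        exact (Finset.filter_subset _ _).trans ((Finset.filter_subset _ _).trans (Finset.filter_subset _ _))) ha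
    have hbad : ∀ x : Fin (k + 1) → ℤ, (∀ i, x i ∈ Y i) → dfz x ∈ 𝓑 a := fun x hx => (mem_filter.1 (hYE x hx)).2
    have hne : ∀ i, (Y i).Nonempty := fun i => Finset.card_pos.1 (lt_of_lt_of_le (by omega) (hY i).1)
    choose q hq using hne
    have hinS : ∀ i, ∀ y ∈ Y i, t + y ∈ S := by
      intro i y hy
      have h1 := hYE (Function.update q i y) (by
        intro i'
        by_cases h : i' = i
        · subst h
          rw [Function.update_self]
          exact hy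
        · rw [Function.update_of_ne h]
          exact hq i')
      rw [mem_filter, hE, mem_filter] at h1
      have h2 := h1.1.2 i
      rw [Function.update_self] at h2
      exact h2
    have hdis : ∀ i i', i ≠ i' → ∀ x, x ∈ Y i → x ∉ Y i' := by
      intro i i' hii x hx hx'
      have h1 := hmono a _ (hbad (fun l => if l = i ∨ l = i' then x else q l) fun l => by
        by_cases hl : l = i ∨ l = i'
        · rw [if_pos hl]
          rcases hl with rfl | rfl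
          · exact hx
          · exact hx'
        · rw [if_neg hl]
          exact hq l)
      apply hii
      apply h1.injective
      rw [cons_dfz, cons_dfz]
      simp
    -- the new tree
    have hsub : ∀ i : Fin k, ∃ y : Nd k j → Fin s → ℤ, (∀ ν l, y ν l ∈ Y ((pos a).succAbove i)) ∧
        (∀ ν l ν' l', y ν l = y ν' l' → ν = ν' ∧ l = l') ∧ TrZ pos 𝓑 j y := fun i => (hY ((pos a).succAbove i)).2
    choose ys hys1 hys2 hys3 using hsub
    obtain ⟨yr, hyr1, hyr2⟩ : ∃ yr : Fin s → ℤ, (∀ l, yr l ∈ Y (pos a)) ∧ Function.Injective yr := by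
      have h1 := (hY (pos a)).1
      refine ⟨fun l => ((Y (pos a)).equivFin.symm (Fin.castLE h1 l) : ℤ), fun l => ?_, fun l l' h => ?_⟩
      · exact ((Y (pos a)).equivFin.symm (Fin.castLE h1 l)).2
      · have h2 := (Y (pos a)).equivFin.symm.injective (Subtype.ext h)
        exact Fin.castLE_injective h1 h2
    obtain ⟨y, hyrt, hysn⟩ : ∃ y : Nd k (j + 1) → Fin s → ℤ, (∀ l, y rt l = yr l) ∧
        ∀ i ν l, y (sn i ν) l = ys i ν l :=
      ⟨fun ν l => Option.elim (α := Fin k × Nd k j) ν (yr l) (fun p => ys p.1 p.2 l), fun l => rfl, fun i ν l => rfl⟩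
    have hXY : PT s pos 𝓑 (j + 1) (univ.biUnion Y) := by
      refine ⟨?_, y, ?_, ?_, ⟨a, ?_⟩, ?_⟩
      · exact (hY 0).1.trans (card_le_card (subset_biUnion_of_mem Y (mem_univ 0)))
      · intro ν l
        rcases nd_cases ν with rfl | ⟨i, ν', rfl⟩
        · rw [hyrt]
          exact mem_biUnion.2 ⟨_, mem_univ _, hyr1 l⟩
        · rw [hysn]
          exact mem_biUnion.2 ⟨_, mem_univ _, hys1 i ν' l⟩
      · intro ν l ν' l' h
        rcases nd_cases ν with rfl | ⟨i, ν, rfl⟩ <;> rcases nd_cases ν' with rfl | ⟨i', ν', rfl⟩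
        · rw [hyrt, hyrt] at h
          exact ⟨rfl, hyr2 h⟩
        · rw [hyrt, hysn] at h
          exact absurd (hys1 i' ν' l') (h ▸ hdis _ _ (Fin.succAbove_ne _ _).symm _ (hyr1 l))
        · rw [hyrt, hysn] at h
          exact absurd (hys1 i ν l) (h ▸ hdis _ _ (Fin.succAbove_ne _ _).symm _ (hyr1 l'))
        · rw [hysn, hysn] at h
          by_cases hii : i = i'
          · subst hii
            obtain ⟨h1, h2⟩ := hys2 i ν l ν' l' h
            exact ⟨by rw [h1], h2⟩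
          · refine absurd (hys1 i' ν' l') ?_
            rw [← h]
            exact hdis _ _ (fun h3 => hii (Fin.succAbove_right_injective h3)) _ (hys1 i ν l)
      · rintro v u ⟨l, hl⟩ hu
        refine hbad _ fun i => ?_
        refine Fin.succAboveCases (pos a) ?_ (fun i => ?_) i
        · rw [Fin.insertNth_apply_same, ← hl, hyrt]
          exact hyr1 l
        · rw [Fin.insertNth_apply_succAbove]
          obtain ⟨ν, l', h⟩ := hu i
          rw [← h, hysn]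
          exact hys1 i ν l'
      · intro i
        have h1 : (fun ν => y (sn i ν)) = ys i := by
          funext ν l
          exact hysn i ν l
        rw [h1]
        exact hys3 i
    refine ⟨(univ.biUnion Y).image (fun x => x + t), pt_add _ t hXY, ?_⟩
    intro x hx
    obtain ⟨y', hy', rfl⟩ := Finset.mem_image.1 hx
    obtain ⟨i, -, hi⟩ := Finset.mem_biUnion.1 hy'
    rw [add_comm]
    exact hinS i y' hi

/-- trees of natural numbers -/
theorem tr_of {k s : ℕ} {Λ : Type} (pos : Λ → Fin (k + 1)) (𝓑 : Λ → Set (Fin k → ℤ)) : ∀ (j : ℕ)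
    (y : Nd k j → Fin s → ℤ), (∀ ν l, 0 ≤ y ν l) → TrZ pos 𝓑 j y → Tr pos 𝓑 j (fun ν l => (y ν l).toNat) := by
  intro j
  induction j with
  | zero => intro y _ _; trivial
  | succ j ih =>
    intro y hy0 hy
    obtain ⟨⟨a, ha⟩, h2⟩ := hy
    refine ⟨⟨a, fun v u hv hu => ?_⟩, fun i => ih _ (fun ν l => hy0 _ _) (h2 i)⟩
    have h3 := ha (v : ℤ) (fun i => (u i : ℤ)) (by
      obtain ⟨l, hl⟩ := hv
      have := hy0 rt l
      exact ⟨l, by rw [← hl, Int.toNat_of_nonneg this]⟩) (by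
      intro i
      obtain ⟨ν, l, hl⟩ := hu i
      have := hy0 (sn i ν) l
      exact ⟨ν, l, by rw [← hl, Int.toNat_of_nonneg this]⟩)
    have h5 : ∀ i, ((pos a).insertNth (v : ℤ) (fun i => (u i : ℤ)) : Fin (k + 1) → ℤ) i =
        (((pos a).insertNth v u : Fin (k + 1) → ℕ) i : ℤ) := by
      intro i
      refine Fin.succAboveCases (pos a) ?_ (fun j => ?_) i
      · rw [Fin.insertNth_apply_same, Fin.insertNth_apply_same]
      · rw [Fin.insertNth_apply_succAbove, Fin.insertNth_apply_succAbove]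
    have h4 : dfz ((pos a).insertNth (v : ℤ) (fun i => (u i : ℤ))) = df ((pos a).insertNth v u) := by
      funext i
      unfold dfz df
      rw [h5, h5]
    rw [h4] at h3
    exact h3

/-- trees in one residue class -/
theorem trees_nat {k s : ℕ} (hs : 1 ≤ s) {Λ : Type} [Fintype Λ] (pos : Λ → Fin (k + 1)) (𝓑 : Λ → Set (Fin k → ℤ))
    (hmono : ∀ a, ∀ b ∈ 𝓑 a, StrictMono (Fin.cons 0 b : Fin (k + 1) → ℤ))
    (H : ∀ (J : ℕ) (α : Fin J → ℝ) (ρ : ℝ), 0 < ρ →
      UBDm ({x : Fin (k + 1) → ℤ | ∃ a, dfz x ∈ 𝓑 a} ∩ near (k + 1) α ρ)) (j R ρ' : ℕ) (hR : 0 < R) :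
    ∃ y : Nd k j → Fin s → ℕ, (∀ ν l ν' l', y ν l = y ν' l' → ν = ν' ∧ l = l') ∧ (∀ ν l, y ν l ≡ ρ' [MOD R]) ∧
      Tr pos 𝓑 j y := by
  classical
  obtain ⟨X, ⟨-, y, hyX, hyi, hyT⟩, hX⟩ := trees_inf hs pos 𝓑 hmono H j {x : ℤ | (R : ℤ) ∣ x} (gubd_multiples R hR)
  obtain ⟨N, hN⟩ : ∃ N : ℕ, ∀ x ∈ X, -x ≤ N := by
    refine ⟨∑ x ∈ X, x.natAbs, fun x hx => ?_⟩
    have h1 : x.natAbs ≤ ∑ x ∈ X, x.natAbs := single_le_sum (f := fun x : ℤ => x.natAbs) (fun _ _ => Nat.zero_le _) hx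
    have h2 : -x ≤ (x.natAbs : ℤ) := by omega
    refine h2.trans ?_
    exact_mod_cast h1
  have hRN : (N : ℤ) ≤ R * N := by
    have h1 : N ≤ R * N := Nat.le_mul_of_pos_left N hR
    exact_mod_cast h1
  have hnn : ∀ ν l, 0 ≤ y ν l + ((R * N + ρ' : ℕ) : ℤ) := by
    intro ν l
    have h1 := hN _ (hyX ν l)
    push_cast
    omega
  refine ⟨fun ν l => (y ν l + ((R * N + ρ' : ℕ) : ℤ)).toNat, fun ν l ν' l' h => ?_, fun ν l => ?_, ?_⟩
  · refine hyi ν l ν' l' ?_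
    have h1 := hnn ν l
    have h2 := hnn ν' l'
    have h3 : (y ν l + ((R * N + ρ' : ℕ) : ℤ)).toNat = (y ν' l' + ((R * N + ρ' : ℕ) : ℤ)).toNat := h
    omega
  · rw [← Int.natCast_modEq_iff, Int.toNat_of_nonneg (hnn ν l)]
    obtain ⟨c, hc⟩ : (R : ℤ) ∣ y ν l := hX _ (hyX ν l)
    refine (Int.modEq_iff_dvd.2 ⟨-c - N, ?_⟩)
    rw [hc]
    push_cast
    ring
  · exact tr_of pos 𝓑 j _ hnn (trz_add pos 𝓑 _ j y hyT)

end Pool.Agent.H34.EY
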