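import Pool.Agent.H34.EY.InfS
import Pool.Agent.H34.EY.InfT
import Pool.Agent.H34.EY.InfD
import Pool.Agent.H62.EX.Asm
import Pool.Agent.H62.EX.Inf

/-!
# [H34 EY INFA] The infinite clause with counts
-/

set_option autoImplicit false

namespace Pool.Agent.H34.EY

open Finset Filter Topology Pool.Agent.H61.UN Pool.Agent.H34.RR Pool.Agent.H62.EX
open scoped ENNReal

theorem mono_of_df {k : ℕ} (y : Fin (k + 1) → ℕ) (h1 : StrictMono (Fin.cons 0 (df y) : Fin (k + 1) → ℤ)) :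
    StrictMono y := by
  have h2 : ∀ i, (Fin.cons 0 (df y) : Fin (k + 1) → ℤ) i = (y i : ℤ) - y 0 := by
    intro i
    refine Fin.cases ?_ (fun j => ?_) i
    · simp
    · simp [df]
  intro i i' hii
  have h3 := h1 hii
  rw [h2, h2] at h3
  have : (y i : ℤ) < y i' := by linarith
  exact_mod_cast this

open Classical in
/-- the sieve for one tree -/
theorem core_inf (k r : ℕ) (hk : 1 ≤ k) (hr : 0 < r) : ∃ J s D wd : ℕ, 1 ≤ s ∧
    ∀ pos : Lab k → Fin (k + 1), (∀ a : Lab k, ∀ i ∈ a.1, ∀ i' ∈ a.1, i.succ = i'.castSucc → i.succ = pos a) →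
    ∀ W s₀ R ρ : ℕ, 0 < R → primorial wd ∣ R → W ∣ R → Nat.Coprime ρ R → ρ ≡ s₀ [MOD W] →
    ∀ (χ : ℕ → Fin r) (𝓑 : Lab k → Set (Fin k → ℤ)),
      (∀ a, ∀ b ∈ 𝓑 a, StrictMono (Fin.cons 0 b : Fin (k + 1) → ℤ)) →
      ∀ y : Nd k J → Fin s → ℕ, (∀ ν l ν' l', y ν l = y ν' l' → ν = ν' ∧ l = l') → (∀ ν l, y ν l ≡ ρ [MOD R]) →
        Tr pos 𝓑 J y → ∃ (L : ℕ) (c : ℝ), 0 < c ∧ ∀ᶠ M : ℕ in atTop, c * M ≤ Real.log M ^ D *
          ({n : ℕ | n < M ∧ ∃ (a : Lab k) (q : Fin r) (u : Fin k → ℕ), (∀ j, u j ≤ L) ∧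
            (fun j => (u j : ℤ)) ∈ 𝓑 a ∧
            Pat W s₀ χ q a.1 (Fin.cons 0 u : Fin (k + 1) → ℕ) (Nat.nth Nat.Prime n)}.ncard : ℝ) := by
  have hr0 : (0 : ℝ) < r := by exact_mod_cast hr
  have hk0 : (0 : ℝ) < k := by exact_mod_cast hk
  obtain ⟨J, hJ⟩ : ∃ J : ℕ, J = 100 * k * r := ⟨_, rfl⟩
  have hJ1 : 1 ≤ J := by
    rw [hJ]
    exact Nat.mul_pos (Nat.mul_pos (by norm_num) hk) hr
  obtain ⟨m, hmd⟩ : ∃ m : ℕ, m = Fintype.card (Nd k J) := ⟨_, rfl⟩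
  have hm : 1 ≤ m := by
    obtain ⟨J', rfl⟩ : ∃ J', J = J' + 1 := ⟨J - 1, by omega⟩
    rw [hmd, card_nd]
    omega
  obtain ⟨e⟩ : Nonempty (Fin m ≃ Nd k J) := by
    rw [hmd]
    exact ⟨(Fintype.equivFin _).symm⟩
  obtain ⟨s, wd, H0, hs, hsv⟩ := sieveF m hm
  refine ⟨J, s, m * s, wd, hs, fun pos hpos W s₀ R ρ hR hRw hWR hρ1 hρ2 χ 𝓑 hmono y hyi hyρ hyT => ?_⟩
  have hw0 : ∀ d : Fin m, 0 ≤ (fun d => wt k J (e d) / r) d := fun d => div_nonneg (wt_nonneg _ _ _) hr0.le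
  have hw1 : 100 ≤ ∑ d : Fin m, (fun d => wt k J (e d) / r) d := by
    rw [← Finset.sum_div, Equiv.sum_comp e (wt k J), sum_wt k J hk, hJ]
    rw [le_div_iff₀ hr0, le_div_iff₀ hk0]
    push_cast
    linarith
  obtain ⟨v, hv⟩ : ∃ v : Fin m × Fin s → ℕ, v = fun p => y (e p.1) p.2 := ⟨_, rfl⟩
  obtain ⟨L, hL⟩ : ∃ L : ℕ, L = H0 + ∑ i, v i := ⟨_, rfl⟩
  have hvL : ∀ i, v i ≤ L := fun i => by
    rw [hL]
    exact (single_le_sum (f := v) (fun _ _ => Nat.zero_le _) (mem_univ i)).trans (Nat.le_add_left _ _)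
  have hvI : v ∈ IJ (Fin m × Fin s) L := by
    refine mem_IJ.2 ⟨hvL, ?_⟩
    rintro ⟨d, l⟩ ⟨d', l'⟩ h
    rw [hv] at h
    obtain ⟨h1, h2⟩ := hyi _ _ _ _ h
    rw [Prod.mk.injEq]
    exact ⟨e.injective h1, h2⟩
  have hvρ : ∀ i, v i ≡ ρ [MOD R] := fun i => by
    rw [hv]
    exact hyρ _ _
  have hvT : Tr pos 𝓑 J (fun ν l => v (e.symm ν, l)) := by
    have h1 : (fun ν l => v (e.symm ν, l)) = y := by
      funext ν l
      rw [hv]
      show y (e (e.symm ν)) l = y ν l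
      rw [Equiv.apply_symm_apply]
    rw [h1]
    exact hyT
  obtain ⟨δ, θ, T, hδ, hθ, hT, hx⟩ := hsv _ hw0 hw1 R hR hRw L (by rw [hL]; exact Nat.le_add_right _ _) v hvI
    (fun i => by
      have h4 : Nat.gcd ρ R = 1 := hρ1
      show Nat.gcd (v i) R = 1
      rw [← h4]
      exact Nat.ModEq.gcd_eq (hvρ i))
  obtain ⟨d0, xs, hd0, hxs, hwin⟩ := Pool.Agent.H62.AU.winU T hT
  refine ⟨L, d0 * δ / 2 ^ (m * s), by positivity, ?_⟩
  have hlogM : Tendsto (fun M : ℕ => Real.log (M : ℝ)) atTop atTop :=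
    Real.tendsto_log_atTop.comp tendsto_natCast_atTop_atTop
  filter_upwards [hxs.eventually hx, hxs.eventually_gt_atTop 1, hwin, hlogM.eventually_ge_atTop ((L : ℝ) + 1)]
    with M hxx hxs1 hwin hML
  obtain ⟨hlx1, hlx2, hwin⟩ := hwin
  generalize xs M = X at hxx hxs1 hlx1 hlx2 hwin
  have hL00 : (0 : ℝ) ≤ L := Nat.cast_nonneg _
  have hlM : 0 < Real.log (M : ℝ) := by linarith
  have hlX : 0 < Real.log X := by linarith
  have hX0 : 0 < X := by linarith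
  obtain ⟨P, hP⟩ : ∃ P : ℕ → Prop, P = fun n => ∃ (a : Lab k) (q : Fin r) (u : Fin k → ℕ), (∀ j, u j ≤ L) ∧
      (fun j => (u j : ℤ)) ∈ 𝓑 a ∧
      Pat W s₀ χ q a.1 (Fin.cons 0 u : Fin (k + 1) → ℕ) (Nat.nth Nat.Prime n) := ⟨_, rfl⟩
  have hfin := hwin P (δ / Real.log X ^ (m * s)) _ (by positivity) hxx (by
    intro N hN
    rw [mem_filter, mem_range, Nat.lt_succ_iff] at hN
    obtain ⟨h1, h2, h3, hwc, hpr⟩ := hN
    refine ⟨(Nat.le_floor_iff (by positivity)).1 h1, ?_⟩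
    obtain ⟨a, q, z, hz1, hz2, hz3⟩ := win_pat hk hs pos (fun a => a.1) hpos 𝓑
      (fun a y hy => mono_of_df y (hmono a _ hy)) W s₀ χ N L e v hvL hvT hwc
      (fun i => by
        have h4 : N ≡ 0 [MOD W] := Nat.modEq_zero_iff_dvd.2 (hWR.trans h3)
        have h5 := h4.add ((hvρ i).of_dvd hWR)
        rw [Nat.zero_add] at h5
        exact h5.trans hρ2) hpr
    have hzm := mono_of_df z (hmono a _ hz1)
    have hz0 : ∀ i, z 0 ≤ z i := fun i => hzm.monotone (Fin.zero_le i)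
    have hp : (N + z 0).Prime := by
      have h4 := (hz3.1 0).1
      simp only [Nat.sub_self, Nat.add_zero] at h4
      exact h4
    obtain ⟨n, hn⟩ := exists_nth hp
    refine ⟨n, ?_, ?_, ?_⟩
    · rw [hP]
      refine ⟨a, q, fun j => z j.succ - z 0, fun j => (Nat.sub_le _ _).trans (hz2 _), ?_, ?_⟩
      · have h4 : (fun j : Fin k => ((z j.succ - z 0 : ℕ) : ℤ)) = df z := by
          funext j
          rw [df, Nat.cast_sub (hz0 _)]
        rw [h4]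
        exact hz1
      · rw [hn]
        have h4 : (Fin.cons 0 (fun j : Fin k => z j.succ - z 0) : Fin (k + 1) → ℕ) = fun i => z i - z 0 := by
          funext i
          refine Fin.cases ?_ (fun j => ?_) i
          · simp
          · rw [Fin.cons_succ]
        rw [h4]
        exact hz3
    · rw [hn]
      exact Nat.le_add_right _ _
    · rw [hn]
      push_cast
      have h4 : (z 0 : ℝ) ≤ L := by exact_mod_cast hz2 0
      linarith)
  rw [hP] at hfin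
  have h1 : Real.log X ^ (m * s) ≤ 2 ^ (m * s) * Real.log M ^ (m * s) := by
    rw [← mul_pow]
    exact pow_le_pow_left₀ hlX.le hlx2 _
  have hM0 : (0 : ℝ) ≤ M := Nat.cast_nonneg M
  refine le_trans ?_ (mul_le_mul_of_nonneg_left hfin (by positivity : (0 : ℝ) ≤ Real.log M ^ (m * s)))
  have h2 : 1 / 2 ^ (m * s) ≤ Real.log M ^ (m * s) / Real.log X ^ (m * s) := by
    rw [div_le_div_iff₀ (by positivity) (by positivity)]
    linarith
  calc d0 * δ / 2 ^ (m * s) * M = (d0 * δ * M) * (1 / 2 ^ (m * s)) := by ring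
    _ ≤ (d0 * δ * M) * (Real.log M ^ (m * s) / Real.log X ^ (m * s)) :=
        mul_le_mul_of_nonneg_left h2 (by positivity)
    _ = Real.log M ^ (m * s) * (d0 * (δ / Real.log X ^ (m * s)) * M) := by ring

open Classical in
theorem thm_inf : ThmI := by
  intro k r hk
  rcases Nat.eq_zero_or_pos r with hr | hr
  · subst hr
    exact ⟨0, fun _ _ _ _ χ => (χ 0).elim0⟩
  obtain ⟨J, s, D, wd, hs, hcore⟩ := core_inf k r hk hr
  refine ⟨D, fun W s₀ hW hs₀ χ 𝓜₀ h𝓜₀ => ?_⟩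
  obtain ⟨pos, hpos⟩ := exists_pos k
  obtain ⟨R, hRd⟩ : ∃ R : ℕ, R = W * primorial wd := ⟨_, rfl⟩
  have hR : 0 < R := by rw [hRd]; exact Nat.mul_pos hW (primorial_pos wd)
  have hRw : primorial wd ∣ R := by rw [hRd]; exact Dvd.intro_left _ rfl
  have hWR : W ∣ R := by rw [hRd]; exact Dvd.intro _ rfl
  obtain ⟨ρ', hρ1, hρ2⟩ := exists_class W s₀ R hW hs₀ hR
  -- the counts
  obtain ⟨C, hC⟩ : ∃ C : ℕ → (Fin k → ℕ) × Finset (Fin k) × Fin r → ℝ,
      C = fun (M : ℕ) (p : (Fin k → ℕ) × Finset (Fin k) × Fin r) => Real.log M ^ D * ({n : ℕ | n < M ∧ Pat W s₀ χ p.2.2 p.2.1 (Fin.cons 0 p.1 : Fin (k + 1) → ℕ)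
            (Nat.nth Nat.Prime n)}.ncard : ℝ) := ⟨_, rfl⟩
  obtain ⟨𝓜, h𝓜1, h𝓜2, ℓ, hℓ⟩ := diag (fun M p => ENNReal.ofReal (C M p / M)) 𝓜₀ h𝓜₀
  obtain ⟨𝓑, h𝓑⟩ : ∃ 𝓑 : Lab k → Set (Fin k → ℤ), 𝓑 = fun a => {b | StrictMono (Fin.cons 0 b : Fin (k + 1) → ℤ) ∧
      ∀ q : Fin r, ℓ (fun j => (b j).toNat, a.1, q) = 0} := ⟨_, rfl⟩
  have hgood : ∀ p, ℓ p ≠ 0 → ∃ (c : ℝ) (M₁ : ℕ), 0 < c ∧ ∀ M ∈ 𝓜, M₁ ≤ M → c * M ≤ C M p := by
    intro p hp
    obtain ⟨c, hc, hU⟩ := lim_pos hp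
    obtain ⟨M₁, hM₁⟩ := hℓ p _ hU
    refine ⟨c, max M₁ 1, hc, fun M hM hMM => ?_⟩
    have h1 : ENNReal.ofReal c < ENNReal.ofReal (C M p / M) := hM₁ M hM ((le_max_left _ _).trans hMM)
    have h2 : c < C M p / M := (ENNReal.ofReal_lt_ofReal_iff_of_nonneg hc.le).1 h1
    have h3 : (0 : ℝ) < M := by
      have : 1 ≤ M := (le_max_right _ _).trans hMM
      exact_mod_cast this
    rw [lt_div_iff₀ h3] at h2
    exact h2.le
  have hbad : ∀ p, ℓ p = 0 → ∀ c : ℝ, 0 < c → ∃ M₁ : ℕ, ∀ M ∈ 𝓜, M₁ ≤ M → C M p ≤ c * M := by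
    intro p hp c hc
    obtain ⟨M₁, hM₁⟩ := hℓ p _ (by rw [hp]; exact lim_zero hc)
    refine ⟨max M₁ 1, fun M hM hMM => ?_⟩
    have h1 : ENNReal.ofReal (C M p / M) < ENNReal.ofReal c := hM₁ M hM ((le_max_left _ _).trans hMM)
    have h2 : C M p / M < c := (ENNReal.ofReal_lt_ofReal_iff hc).1 h1
    have h3 : (0 : ℝ) < M := by
      have : 1 ≤ M := (le_max_right _ _).trans hMM
      exact_mod_cast this
    rw [div_lt_iff₀ h3] at h2
    exact h2.le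
  refine ⟨𝓜, h𝓜1, h𝓜2, ?_⟩
  by_contra hcon
  push Not at hcon
  have hmono : ∀ a, ∀ b ∈ 𝓑 a, StrictMono (Fin.cons 0 b : Fin (k + 1) → ℤ) := fun a b hb => by
    rw [h𝓑] at hb
    exact hb.1
  -- the bad tuples are dense in all Bohr sets
  have H : ∀ (J : ℕ) (α : Fin J → ℝ) (ρ : ℝ), 0 < ρ → Pool.Agent.H74.BT.UBDm
      ({x : Fin (k + 1) → ℤ | ∃ a, dfz x ∈ 𝓑 a} ∩ Pool.Agent.H74.BT.near (k + 1) α ρ) := by
    intro J α ρ hρ
    obtain ⟨ε, hε, hX⟩ := hcon J α (ρ / 2) (by positivity)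
    obtain ⟨A, hA⟩ : ∃ A : Set (Fin k → ℤ), A = {b | (∀ j, b j ∈ Pool.Agent.H92.BH.Boh α (ρ / 2)) ∧ ∃ a, b ∈ 𝓑 a} :=
      ⟨_, rfl⟩
    refine Pool.Agent.H74.BT.shear A _ ?_ ?_
    · refine ⟨ε, hε, fun X₀ => ?_⟩
      obtain ⟨z, b, hz, hzb⟩ := hX (max X₀ 1)
      refine ⟨z, (le_max_left _ _).trans hz, lt_of_lt_of_le one_pos ((le_max_right _ _).trans hz),
        fun j => (b j : ℤ), ?_⟩
      refine hzb.le.trans (Nat.cast_le.2 ?_)
      refine card_le_card_of_injOn (fun a j => (a j : ℤ)) ?_ ?_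
      · intro a ha
        rw [mem_coe, mem_filter, Fintype.mem_piFinset] at ha
        obtain ⟨ha1, ha2, ha3, ha4⟩ := ha
        rw [mem_coe, mem_filter, Pool.Agent.H74.BT.cube, Fintype.mem_piFinset, hA]
        refine ⟨fun j => ?_, fun j i => ?_, ?_⟩
        · have h1 := mem_Icc.1 (ha1 j)
          rw [mem_Ioc]
          show (b j : ℤ) < (a j : ℤ) ∧ (a j : ℤ) ≤ (b j : ℤ) + z
          omega
        · obtain ⟨n, hn⟩ := ha3 j i
          exact ⟨n, by push_cast; exact hn⟩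
        · obtain ⟨G, hG, hq⟩ := ha4
          refine ⟨⟨G, hG⟩, ?_⟩
          rw [h𝓑]
          refine ⟨?_, fun q => ?_⟩
          · intro i i' hii
            refine Fin.cases (fun hii => ?_) (fun j hii => ?_) i hii
            · obtain ⟨j', rfl⟩ := Fin.exists_succ_eq.2 (Fin.pos_iff_ne_zero.1 hii)
              rw [Fin.cons_zero, Fin.cons_succ]
              have h1 := mem_Icc.1 (ha1 j')
              show (0 : ℤ) < (a j' : ℤ)
              omega
            · have hne : i' ≠ 0 := by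
                rintro rfl
                exact absurd hii (by simp)
              obtain ⟨j', rfl⟩ := Fin.exists_succ_eq.2 hne
              rw [Fin.cons_succ, Fin.cons_succ]
              have h1 : a j < a j' := ha2 (Fin.succ_lt_succ_iff.1 hii)
              show (a j : ℤ) < (a j' : ℤ)
              exact_mod_cast h1
          · by_contra hne
            have h1 : (fun j => ((a j : ℤ)).toNat) = a := by
              funext j
              exact Int.toNat_natCast _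
            have h2 : ℓ (a, G, q) ≠ 0 := by
              have h3 := hne
              simp only [h1] at h3
              exact h3
            obtain ⟨c, M₁, hc, hM₁⟩ := hgood _ h2
            obtain ⟨M, hM, hMM, hlt⟩ := hq q c M₁ hc
            have h3 := hM₁ M hM hMM
            rw [hC] at h3
            exact absurd h3 (not_le.2 hlt)
      · intro a _ a' _ h
        funext j
        have h1 : ((a j : ℕ) : ℤ) = (a' j : ℤ) := congrFun h j
        exact_mod_cast h1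
    · intro b hb t _
      rw [hA] at hb
      obtain ⟨hb1, a, hb2⟩ := hb
      refine ⟨⟨a, ?_⟩, ?_⟩
      · have h1 : dfz (Fin.cons t (fun i => t + b i) : Fin (k + 1) → ℤ) = b := by
          funext j
          simp [dfz]
        rw [h1]
        exact hb2
      · intro i j
        have key : ∀ i : Fin (k + 1), ∃ h : ℤ, h ∈ Pool.Agent.H92.BH.Boh α (ρ / 2) ∧
            (Fin.cons t (fun i => t + b i) : Fin (k + 1) → ℤ) i = t + h := by
          intro i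
          refine Fin.cases ⟨0, Pool.Agent.H74.BT.gboh_zero (by positivity), by simp⟩
            (fun i => ⟨b i, hb1 i, by simp⟩) i
        obtain ⟨h, hh, hi⟩ := key i
        obtain ⟨h', hh', hj⟩ := key j
        rw [hi, hj]
        have h3 : t + h - (t + h') = h + -h' := by ring
        rw [h3]
        exact Pool.Agent.H74.BT.gboh_add hh (Pool.Agent.H74.BT.gboh_neg hh')
  obtain ⟨y, hy1, hy2, hy3⟩ := trees_nat hs pos 𝓑 hmono H J R ρ' hR
  obtain ⟨L, c, hc, hev⟩ := hcore pos hpos W s₀ R ρ' hR hRw hWR hρ1 hρ2 χ 𝓑 hmono y hy1 hy2 hy3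
  obtain ⟨M2, hM2⟩ := eventually_atTop.1 hev
  -- the union bound
  obtain ⟨I, hI⟩ : ∃ I : Finset (Lab k × Fin r × (Fin k → ℕ)), I =
    ((univ : Finset (Lab k)) ×ˢ ((univ : Finset (Fin r)) ×ˢ
      Fintype.piFinset (fun _ : Fin k => range (L + 1)))).filter
      (fun p => (fun j => (p.2.2 j : ℤ)) ∈ 𝓑 p.1) := ⟨_, rfl⟩
  have hIbad : ∀ p ∈ I, ∃ M₁ : ℕ, ∀ M ∈ 𝓜, M₁ ≤ M → C M (p.2.2, p.1.1, p.2.1) ≤ c / (I.card + 1) * M := by
    intro p hp
    refine hbad _ ?_ _ (by positivity)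
    rw [hI, mem_filter, h𝓑] at hp
    have h1 := hp.2.2 p.2.1
    simp only [Int.toNat_natCast] at h1
    exact h1
  have hch : ∀ p : Lab k × Fin r × (Fin k → ℕ), ∃ M₁ : ℕ, p ∈ I → ∀ M ∈ 𝓜, M₁ ≤ M →
      C M (p.2.2, p.1.1, p.2.1) ≤ c / (I.card + 1) * M := by
    intro p
    by_cases hp : p ∈ I
    · obtain ⟨M₁, hM₁⟩ := hIbad p hp
      exact ⟨M₁, fun _ => hM₁⟩
    · exact ⟨0, fun h => absurd h hp⟩
  choose M1 hM1 using hch
  obtain ⟨M, hM, hMM⟩ := h𝓜2.exists_gt (M2 + 1 + ∑ p ∈ I, M1 p)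
  have hMpos : (0 : ℝ) < M := by
    have : 0 < M := by omega
    exact_mod_cast this
  have hlM0 : 0 ≤ Real.log (M : ℝ) := Real.log_natCast_nonneg M
  have h1 := hM2 M (by omega)
  obtain ⟨P, hP⟩ : ∃ P : ℕ → Prop, P = fun n => ∃ (a : Lab k) (q : Fin r) (u : Fin k → ℕ), (∀ j, u j ≤ L) ∧
      (fun j => (u j : ℤ)) ∈ 𝓑 a ∧
      Pat W s₀ χ q a.1 (Fin.cons 0 u : Fin (k + 1) → ℕ) (Nat.nth Nat.Prime n) := ⟨_, rfl⟩
  have h2 : c * M ≤ Real.log M ^ D * (({n : ℕ | n < M ∧ P n}.ncard : ℕ) : ℝ) := by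
    rw [hP]
    exact h1
  rw [ncard_eq] at h2
  have hsub : (range M).filter P ⊆ I.biUnion (fun p => (range M).filter (fun n =>
      Pat W s₀ χ p.2.1 p.1.1 (Fin.cons 0 p.2.2 : Fin (k + 1) → ℕ) (Nat.nth Nat.Prime n))) := by
    intro n hn
    rw [mem_filter, hP] at hn
    obtain ⟨hn1, a, q, u, hu1, hu2, hu3⟩ := hn
    rw [mem_biUnion]
    refine ⟨(a, q, u), ?_, mem_filter.2 ⟨hn1, hu3⟩⟩
    rw [hI, mem_filter, mem_product, mem_product, Fintype.mem_piFinset]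
    exact ⟨⟨mem_univ _, mem_univ _, fun j => mem_range.2 (Nat.lt_succ_of_le (hu1 j))⟩, hu2⟩
  have h3 : (((range M).filter P).card : ℝ) ≤ ∑ p ∈ I, (((range M).filter (fun n =>
      Pat W s₀ χ p.2.1 p.1.1 (Fin.cons 0 p.2.2 : Fin (k + 1) → ℕ) (Nat.nth Nat.Prime n))).card : ℝ) := by
    exact_mod_cast (card_le_card hsub).trans card_biUnion_le
  have h4 : ∀ p ∈ I, Real.log M ^ D * (((range M).filter (fun n =>
      Pat W s₀ χ p.2.1 p.1.1 (Fin.cons 0 p.2.2 : Fin (k + 1) → ℕ) (Nat.nth Nat.Prime n))).card : ℝ) ≤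
      c / (I.card + 1) * M := by
    intro p hp
    have h5 := hM1 p hp M hM (by
      have : M1 p ≤ ∑ p ∈ I, M1 p := single_le_sum (f := M1) (fun _ _ => Nat.zero_le _) hp
      omega)
    rw [hC] at h5
    simp only [ncard_eq] at h5
    exact h5
  have h5 : Real.log M ^ D * (((range M).filter P).card : ℝ) ≤ I.card * (c / (I.card + 1) * M) := by
    calc Real.log M ^ D * (((range M).filter P).card : ℝ) ≤ Real.log M ^ D * ∑ p ∈ I, (((range M).filter (fun n =>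
          Pat W s₀ χ p.2.1 p.1.1 (Fin.cons 0 p.2.2 : Fin (k + 1) → ℕ) (Nat.nth Nat.Prime n))).card : ℝ) :=
          mul_le_mul_of_nonneg_left h3 (by positivity)
      _ = ∑ p ∈ I, Real.log M ^ D * (((range M).filter (fun n =>
          Pat W s₀ χ p.2.1 p.1.1 (Fin.cons 0 p.2.2 : Fin (k + 1) → ℕ) (Nat.nth Nat.Prime n))).card : ℝ) :=
          mul_sum _ _ _
      _ ≤ ∑ _p ∈ I, c / (I.card + 1) * M := sum_le_sum h4
      _ = I.card * (c / (I.card + 1) * M) := by rw [sum_const, nsmul_eq_mul]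
  have h6 : c * M = ((I.card : ℝ) + 1) * (c / (I.card + 1) * M) := by
    field_simp
  have h7 : 0 < c / ((I.card : ℝ) + 1) * M := by positivity
  linarith

end Pool.Agent.H34.EY
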