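import Pool.Agent.H62.EX.Df
import Pool.Agent.H62.AU.Mq

/-!
# [H34 EY INFS] Many windows: the lower bound for the length of the window does not depend on the configurations

`sieveE` of H62/EX/Siv with the length `H0` chosen before the weights, the modulus and the density (same proof), and
`sieveF` for one configuration.
-/

set_option autoImplicit false

namespace Pool.Agent.H34.EY

open Finset Filter Pool.Agent.H21.MT Pool.Agent.H92.MM Pool.Agent.H61.UN Pool.Agent.H96.WP Pool.Agent.H34.RR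
open Pool.Agent.H34.RC Pool.Agent.H62.AU Pool.Agent.H62.EX

/-- a family with one more rough site -/
private theorem extraE {ι : Type} [Fintype ι] [DecidableEq ι] (x a : ℝ) (L N : ℕ) (B : Finset (ι → ℕ))
    (hB : ∀ v ∈ B, v ∈ IJ ι L ∧ (∀ i, Rgh (x ^ a) (N + v i)) ∧
      ∃ y ≤ L, (∀ i, v i ≠ y) ∧ Rgh (x ^ a) (N + y)) :
    B.card ≤ ((RJ (Option ι) x a L N).filter (fun h => ∀ j, h j ∈ (fun _ : Option ι => Icc 0 L) j)).card := by
  classical
  refine (main_extra x a L N B hB).trans (le_of_eq ?_)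
  rw [filter_true_of_mem]
  intro h hh j
  rw [mem_RJ] at hh
  exact mem_Icc.2 ⟨Nat.zero_le _, hh.1.1 j⟩

/-- a family without one more rough site -/
private theorem sameE {ι : Type} [Fintype ι] [DecidableEq ι] (x a : ℝ) (L N : ℕ) (B : Finset (ι → ℕ))
    (hB : ∀ v ∈ B, v ∈ IJ ι L ∧ (∀ i, Rgh (x ^ a) (N + v i))) :
    B.card ≤ ((RJ ι x a L N).filter (fun h => ∀ j, h j ∈ (fun _ : ι => Icc 0 L) j)).card := by
  classical
  refine card_le_card fun v hv => ?_
  obtain ⟨h1, h2⟩ := hB v hv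
  rw [mem_filter, mem_RJ]
  exact ⟨⟨mem_IJ.1 h1, h2⟩, fun j => mem_Icc.2 ⟨Nat.zero_le _, (mem_IJ.1 h1).1 j⟩⟩

private theorem boxE {ι : Type} (L : ℕ) : BoxU (L : ℝ) (L : ℝ) (fun _ : ι => Icc 0 L) := by
  intro i
  refine ⟨0, L, by rw [zero_add], ?_, by rw [zero_add]⟩
  push_cast
  linarith

private theorem prodE (ι : Type) [Fintype ι] {L : ℕ} (hL : 1 ≤ L) :
    ∏ _k : ι, (((Icc 0 L).card : ℕ) : ℝ) ≤ (2 * (L : ℝ)) ^ Fintype.card ι := by
  rw [prod_const, card_univ]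
  refine pow_le_pow_left₀ (Nat.cast_nonneg _) ?_ _
  rw [Nat.card_Icc]
  push_cast
  have : (1 : ℝ) ≤ L := by exact_mod_cast hL
  linarith

open Classical in
theorem sieveE' (m : ℕ) (hm : 1 ≤ m) : ∃ (s wd : ℕ) (H0 : ℝ), 1 ≤ s ∧ 1 ≤ H0 ∧
    ∀ w : Fin m → ℝ, (∀ d, 0 ≤ w d) → 100 ≤ ∑ d, w d →
    ∀ R : ℕ, 0 < R → primorial wd ∣ R → ∀ c : ℝ, 0 < c → ∃ lam0 δ θ T : ℝ, 0 < lam0 ∧ lam0 ≤ 1 ∧ 0 < δ ∧ 0 < θ ∧
      1 ≤ T ∧ ∀ᶠ x : ℝ in atTop, ∀ L : ℕ, H0 ≤ L → (L : ℝ) ≤ lam0 * Real.log x →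
        ∀ 𝓗 : Finset (Fin m × Fin s → ℕ), (∀ v ∈ 𝓗, v ∈ IJ (Fin m × Fin s) L ∧ ∀ i, Nat.Coprime (v i) R) →
          c * (L : ℝ) ^ (m * s) ≤ 𝓗.card →
            δ * (L / Real.log x) ^ (m * s) * x ≤ (((range (⌊T * x⌋₊ + 1)).filter (fun N : ℕ =>
              θ * x ≤ (N : ℝ) ∧ R ∣ N ∧ ∃ v ∈ 𝓗, 1 < wc w v N ∧
                ∀ y : ℕ, y ≤ L → (N + y).Prime → ∃ i, v i = y)).card : ℝ) := by
  obtain ⟨s, a, wd, hs, ha, ha1, hob⟩ := box_class1 m hm
  have hne : Nonempty (Fin m × Fin s) := ⟨(⟨0, by omega⟩, ⟨0, by omega⟩)⟩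
  have hcard : Fintype.card (Fin m × Fin s) = m * s := by
    rw [Fintype.card_prod, Fintype.card_fin, Fintype.card_fin]
  have hcardO : Fintype.card (Option (Fin m × Fin s)) = m * s + 1 := by
    rw [Fintype.card_option, hcard]
  obtain ⟨Ct, κt, hCt, htail⟩ := Pool.Agent.H79.AU.tailBU (Fin m × Fin s) a ha
  obtain ⟨Co, κo, hCo, htot⟩ := Pool.Agent.H79.AU.totalBU (Option (Fin m × Fin s)) a ha
  obtain ⟨Ch, κh, hCh, hhead⟩ := Pool.Agent.H79.AU.headBU (Fin m × Fin s) a ha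
  rw [hcard] at htail hhead
  rw [hcardO] at htot
  obtain ⟨H1, hH1⟩ : ∃ H1 : ℝ, ∀ y : ℝ, H1 ≤ y → Real.log y ^ (κt + κo + κh) ≤ y := by
    have h1 := (Real.isLittleO_pow_log_id_atTop (n := κt + κo + κh)).bound (show (0 : ℝ) < 1 by norm_num)
    obtain ⟨H1, hH1⟩ := eventually_atTop.1 h1
    refine ⟨max H1 1, fun y hy => ?_⟩
    have h2 := hH1 y ((le_max_left _ _).trans hy)
    have h3 : 0 ≤ y := zero_le_one.trans ((le_max_right _ _).trans hy)
    rw [one_mul, id, Real.norm_eq_abs, Real.norm_eq_abs, abs_of_nonneg h3] at h2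
    exact (le_abs_self _).trans h2
  refine ⟨s, wd, max 3 H1, hs, (by norm_num : (1 : ℝ) ≤ 3).trans (le_max_left _ _), ?_⟩
  intro w hw hw100 R hR hRw c hc
  obtain ⟨c0, hc0, hob⟩ := hob w hw hw100 R hR hRw
  -- constants
  have hT1 : (1 : ℝ) ≤ max 1 (8 * Ct * 2 ^ (m * s) / (c0 * c)) := le_max_left _ _
  have hT2 : 8 * Ct * 2 ^ (m * s) / (c0 * c) ≤ max 1 (8 * Ct * 2 ^ (m * s) / (c0 * c)) := le_max_right _ _
  generalize max 1 (8 * Ct * 2 ^ (m * s) / (c0 * c)) = T at hT1 hT2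
  have hT0 : 0 < T := by linarith
  obtain ⟨θ, hθd⟩ : ∃ θ : ℝ, θ = c0 * c / (8 * Ch * 2 ^ (m * s)) := ⟨_, rfl⟩
  have hθ : 0 < θ := by rw [hθd]; positivity
  have hθC : Ch * θ * 2 ^ (m * s) = c0 * c / 8 := by
    rw [hθd]
    field_simp
  obtain ⟨K, hK⟩ : ∃ K : ℕ, K = Fintype.card ((Fin m × Fin s) → (Fin m × Fin s)) := ⟨_, rfl⟩
  have hK0 : 0 < K := by
    rw [hK]
    exact Fintype.card_pos
  have hKr : (0 : ℝ) < K := by exact_mod_cast hK0
  refine ⟨min 1 (c0 * c / (4 * Co * 2 ^ (m * s + 1))), c0 * c / (2 * K), θ, T,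
    by positivity, min_le_left _ _, by positivity, hθ, hT1, ?_⟩
  have hlogt := Real.tendsto_log_atTop
  filter_upwards [hob, htail T hT1, htot, hhead θ hθ, eventually_ge_atTop (4 : ℝ),
    hlogt.eventually_ge_atTop 1] with x hob htail htot hhead hx4 hlog1
  intro L hLH0 hLlam 𝓗 h𝓗 h𝓗c
  have hx0 : 0 < x := by linarith
  have hlog : 0 < Real.log x := by linarith
  have hL3 : (3 : ℝ) ≤ L := (le_max_left _ _).trans hLH0
  have hLH1 : H1 ≤ L := (le_max_right _ _).trans hLH0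
  have hL0 : (0 : ℝ) < L := by linarith
  have hL1 : 1 ≤ L := by
    have : (1 : ℝ) ≤ (L : ℝ) := by linarith
    exact_mod_cast this
  have hlogL : 1 ≤ Real.log L := by
    rw [Real.le_log_iff_exp_le hL0]
    linarith [Real.exp_one_lt_d9]
  have hbκ : ∀ κ' : ℕ, κ' ≤ κt + κo + κh → Real.log L ^ κ' ≤ L := fun κ' hκ' =>
    (pow_le_pow_right₀ hlogL hκ').trans (hH1 L hLH1)
  have hLlog : (L : ℝ) ≤ Real.log x := by
    refine hLlam.trans ?_
    have h1 : min 1 (c0 * c / (4 * Co * 2 ^ (m * s + 1))) ≤ 1 := min_le_left _ _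
    nlinarith
  have hlam3 : Co * 2 ^ (m * s + 1) * (L / Real.log x) ≤ c0 * c / 4 := by
    have h0 : L / Real.log x ≤ min 1 (c0 * c / (4 * Co * 2 ^ (m * s + 1))) := by
      rw [div_le_iff₀ hlog]
      exact hLlam
    have h1 := h0.trans (min_le_right _ _)
    rw [le_div_iff₀ (by positivity)] at h1
    nlinarith
  have hob := hob L hL1 hLlog
  obtain ⟨Y, hY⟩ : ∃ Y : ℝ, Y = (L : ℝ) ^ (m * s) * (x / Real.log x ^ (m * s)) := ⟨_, rfl⟩
  have hY0 : 0 < Y := by rw [hY]; positivity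
  -- the three kinds of pairs
  obtain ⟨P0, hP0⟩ : ∃ P0 : (Fin m × Fin s → ℕ) → ℕ → Prop, P0 = fun (u : Fin m × Fin s → ℕ) (N : ℕ) =>
    (N : ℝ) ≤ θ * x ∧ ∀ i, Rgh (x ^ a) (N + u i) := ⟨_, rfl⟩
  obtain ⟨P1, hP1⟩ : ∃ P1 : (Fin m × Fin s → ℕ) → ℕ → Prop, P1 = fun (u : Fin m × Fin s → ℕ) (N : ℕ) =>
    T * x < (N : ℝ) ∧ ∀ i, Rgh (x ^ a) (N + u i) := ⟨_, rfl⟩
  obtain ⟨P2, hP2⟩ : ∃ P2 : (Fin m × Fin s → ℕ) → ℕ → Prop, P2 = fun (u : Fin m × Fin s → ℕ) (N : ℕ) =>
    (∀ i, Rgh (x ^ a) (N + u i)) ∧ ∃ y ≤ L, (∀ i, u i ≠ y) ∧ Rgh (x ^ a) (N + y) := ⟨_, rfl⟩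
  obtain ⟨P3, hP3⟩ : ∃ P3 : (Fin m × Fin s → ℕ) → ℕ → Prop, P3 = fun (u : Fin m × Fin s → ℕ) (N : ℕ) =>
    (θ * x ≤ (N : ℝ) ∧ (N : ℝ) ≤ T * x) ∧ R ∣ N ∧ (∀ i, Rgh (x ^ a) (N + u i)) ∧
      1 < wc w u N ∧ (∀ y ≤ L, Rgh (x ^ a) (N + y) → ∃ i, u i = y) := ⟨_, rfl⟩
  have key : ∀ u ∈ 𝓗, c0 * x / Real.log x ^ (m * s) ≤
      ∑ N ∈ (Tx x).filter (P0 u), gw x N + ∑ N ∈ (Tx x).filter (P1 u), gw x N +
        ∑ N ∈ (Tx x).filter (P2 u), gw x N + ∑ N ∈ (Tx x).filter (P3 u), gw x N := by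
    intro u hu
    refine (hob u (h𝓗 u hu).1 (h𝓗 u hu).2).trans ?_
    rw [sum_filter, sum_filter, sum_filter, sum_filter, sum_filter, ← sum_add_distrib, ← sum_add_distrib,
      ← sum_add_distrib]
    refine sum_le_sum fun N _ => ?_
    have hg := (gw_pos x N).le
    by_cases hE : R ∣ N ∧ (∀ i, Rgh (x ^ a) (N + u i)) ∧ 1 < wc w u N
    · rw [if_pos hE]
      have hE2 := hE.2.1
      have q0 : (0 : ℝ) ≤ if P0 u N then gw x N else 0 := by split_ifs <;> linarith
      have q1 : (0 : ℝ) ≤ if P1 u N then gw x N else 0 := by split_ifs <;> linarith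
      have q2 : (0 : ℝ) ≤ if P2 u N then gw x N else 0 := by split_ifs <;> linarith
      have q3 : (0 : ℝ) ≤ if P3 u N then gw x N else 0 := by split_ifs <;> linarith
      by_cases h0 : P0 u N
      · rw [if_pos h0]
        linarith
      · by_cases h1 : P1 u N
        · rw [if_pos h1]
          linarith
        · by_cases h2 : P2 u N
          · rw [if_pos h2]
            linarith
          · have h3 : P3 u N := by
              rw [hP3]
              refine ⟨⟨?_, ?_⟩, hE.1, hE2, hE.2.2, ?_⟩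
              · by_contra hc
                apply h0
                rw [hP0]
                exact ⟨(lt_of_not_ge hc).le, hE2⟩
              · by_contra hc
                apply h1
                rw [hP1]
                exact ⟨lt_of_not_ge hc, hE2⟩
              · intro y hy hr
                by_contra hne
                push Not at hne
                apply h2
                rw [hP2]
                exact ⟨hE2, y, hy, hne, hr⟩
            rw [if_pos h3]
            linarith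
    · rw [if_neg hE]
      have : (0 : ℝ) ≤ if P0 u N then gw x N else 0 := by split_ifs <;> linarith
      have : (0 : ℝ) ≤ if P1 u N then gw x N else 0 := by split_ifs <;> linarith
      have : (0 : ℝ) ≤ if P2 u N then gw x N else 0 := by split_ifs <;> linarith
      have : (0 : ℝ) ≤ if P3 u N then gw x N else 0 := by split_ifs <;> linarith
      linarith
  have hS0 : c0 * c * Y ≤ ∑ u ∈ 𝓗, (∑ N ∈ (Tx x).filter (P0 u), gw x N + ∑ N ∈ (Tx x).filter (P1 u), gw x N +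
      ∑ N ∈ (Tx x).filter (P2 u), gw x N + ∑ N ∈ (Tx x).filter (P3 u), gw x N) := by
    have h1 : ∑ u ∈ 𝓗, c0 * x / Real.log x ^ (m * s) ≤ _ := sum_le_sum key
    rw [sum_const, nsmul_eq_mul] at h1
    refine le_trans ?_ h1
    have h2 : 0 ≤ c0 * x / Real.log x ^ (m * s) := by positivity
    refine le_trans (le_of_eq ?_) (mul_le_mul_of_nonneg_right h𝓗c h2)
    rw [hY]
    ring
  rw [sum_add_distrib, sum_add_distrib, sum_add_distrib, main_swap, main_swap, main_swap, main_swap] at hS0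
  have hJprod : ∏ _k : Fin m × Fin s, (((Icc 0 L).card : ℕ) : ℝ) ≤ 2 ^ (m * s) * (L : ℝ) ^ (m * s) := by
    refine (prodE (Fin m × Fin s) hL1).trans (le_of_eq ?_)
    rw [hcard, mul_pow]
  have hIprod : ∏ _k : Option (Fin m × Fin s), (((Icc 0 L).card : ℕ) : ℝ) ≤
      2 ^ (m * s + 1) * ((L : ℝ) ^ (m * s) * L) := by
    refine (prodE (Option (Fin m × Fin s)) hL1).trans (le_of_eq ?_)
    rw [hcardO, mul_pow, pow_succ (L : ℝ)]
  -- small `N`
  have hF0 : ∑ N ∈ Tx x, gw x N * ((𝓗.filter (fun u => P0 u N)).card : ℝ) ≤ c0 * c / 8 * Y := by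
    have hh := hhead L L hL3 (by linarith) (hbκ κh (by omega)) L (fun _ => Icc 0 L) (boxE L)
    have h1 : ∑ N ∈ Tx x, gw x N * ((𝓗.filter (fun u => P0 u N)).card : ℝ) ≤
        ∑ N ∈ (Tx x).filter (fun N : ℕ => (N : ℝ) ≤ θ * x),
          gw x N * (((RJ (Fin m × Fin s) x a L N).filter
            (fun h => ∀ j, h j ∈ (fun _ : Fin m × Fin s => Icc 0 L) j)).card : ℝ) := by
      rw [sum_filter]
      refine sum_le_sum fun N _ => ?_
      by_cases hN : (N : ℝ) ≤ θ * x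
      · rw [if_pos hN]
        refine mul_le_mul_of_nonneg_left ?_ (gw_pos x N).le
        have h0 := sameE x a L N (𝓗.filter (fun u => P0 u N)) (by
          intro u hu
          rw [mem_filter, hP0] at hu
          exact ⟨(h𝓗 u hu.1).1, hu.2.2⟩)
        refine Nat.cast_le.2 (h0.trans (le_of_eq ?_))
        congr
      · rw [if_neg hN]
        have : 𝓗.filter (fun u => P0 u N) = ∅ := by
          rw [filter_eq_empty_iff]
          intro u _ hu
          rw [hP0] at hu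
          exact hN hu.1
        rw [this, card_empty, Nat.cast_zero, mul_zero]
    refine h1.trans ((le_of_eq (sum_congr rfl fun N _ => by congr)).trans (hh.trans ?_))
    calc Ch * θ * x * (∏ _k : Fin m × Fin s, (((Icc 0 L).card : ℕ) : ℝ)) / Real.log x ^ (m * s)
        ≤ Ch * θ * x * (2 ^ (m * s) * (L : ℝ) ^ (m * s)) / Real.log x ^ (m * s) := by
          gcongr
      _ = Ch * θ * 2 ^ (m * s) * Y := by
          rw [hY]
          field_simp
      _ = c0 * c / 8 * Y := by rw [hθC]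
  -- far part
  have hF1 : ∑ N ∈ Tx x, gw x N * ((𝓗.filter (fun u => P1 u N)).card : ℝ) ≤ c0 * c / 8 * Y := by
    have hh := htail L L hL3 (by linarith) (hbκ κt (by omega)) L (fun _ => Icc 0 L) (boxE L)
    have h1 : ∑ N ∈ Tx x, gw x N * ((𝓗.filter (fun u => P1 u N)).card : ℝ) ≤
        ∑ N ∈ (Tx x).filter (fun N : ℕ => T * x < (N : ℝ)),
          gw x N * (((RJ (Fin m × Fin s) x a L N).filter
            (fun h => ∀ j, h j ∈ (fun _ : Fin m × Fin s => Icc 0 L) j)).card : ℝ) := by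
      rw [sum_filter]
      refine sum_le_sum fun N _ => ?_
      by_cases hN : T * x < (N : ℝ)
      · rw [if_pos hN]
        refine mul_le_mul_of_nonneg_left ?_ (gw_pos x N).le
        have h0 := sameE x a L N (𝓗.filter (fun u => P1 u N)) (by
          intro u hu
          rw [mem_filter, hP1] at hu
          exact ⟨(h𝓗 u hu.1).1, hu.2.2⟩)
        refine Nat.cast_le.2 (h0.trans (le_of_eq ?_))
        congr
      · rw [if_neg hN]
        have : 𝓗.filter (fun u => P1 u N) = ∅ := by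
          rw [filter_eq_empty_iff]
          intro u _ hu
          rw [hP1] at hu
          exact hN hu.1
        rw [this, card_empty, Nat.cast_zero, mul_zero]
    refine h1.trans ((le_of_eq (sum_congr rfl fun N _ => by congr)).trans (hh.trans ?_))
    have h2 : Ct / T * 2 ^ (m * s) ≤ c0 * c / 8 := by
      rw [div_le_iff₀ (by positivity)] at hT2
      rw [div_mul_eq_mul_div, div_le_iff₀ hT0]
      linarith
    calc Ct / T * x * (∏ _k : Fin m × Fin s, (((Icc 0 L).card : ℕ) : ℝ)) / Real.log x ^ (m * s)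
        ≤ Ct / T * x * (2 ^ (m * s) * (L : ℝ) ^ (m * s)) / Real.log x ^ (m * s) := by
          gcongr
      _ = Ct / T * 2 ^ (m * s) * Y := by
          rw [hY]
          field_simp
      _ ≤ c0 * c / 8 * Y := mul_le_mul_of_nonneg_right h2 hY0.le
  -- pairs with one more rough site
  have hF2 : ∑ N ∈ Tx x, gw x N * ((𝓗.filter (fun u => P2 u N)).card : ℝ) ≤ c0 * c / 4 * Y := by
    have htot' := htot L L hL3 (by linarith) (hbκ κo (by omega)) L (fun _ => Icc 0 L) (boxE L)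
    have h1 : ∑ N ∈ Tx x, gw x N * ((𝓗.filter (fun u => P2 u N)).card : ℝ) ≤
        ∑ N ∈ Tx x, gw x N * (((RJ (Option (Fin m × Fin s)) x a L N).filter
          (fun h => ∀ j, h j ∈ (fun _ : Option (Fin m × Fin s) => Icc 0 L) j)).card : ℝ) := by
      refine sum_le_sum fun N _ => ?_
      refine mul_le_mul_of_nonneg_left ?_ (gw_pos x N).le
      have := extraE x a L N (𝓗.filter (fun u => P2 u N)) (by
        intro u hu
        rw [mem_filter, hP2] at hu
        exact ⟨(h𝓗 u hu.1).1, hu.2.1, hu.2.2⟩)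
      exact_mod_cast this
    refine h1.trans ((le_of_eq ?_).trans (htot'.trans ?_))
    · refine sum_congr rfl fun N _ => ?_
      congr 3
    · calc Co * x * (∏ _k : Option (Fin m × Fin s), (((Icc 0 L).card : ℕ) : ℝ)) / Real.log x ^ (m * s + 1)
          ≤ Co * x * (2 ^ (m * s + 1) * ((L : ℝ) ^ (m * s) * L)) / Real.log x ^ (m * s + 1) := by
            gcongr
        _ = (Co * 2 ^ (m * s + 1) * (L / Real.log x)) * Y := by
            rw [hY, pow_succ (Real.log x)]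
            field_simp
        _ ≤ c0 * c / 4 * Y := mul_le_mul_of_nonneg_right hlam3 hY0.le
  -- the main part
  obtain ⟨GG, hGG⟩ : ∃ GG : Finset ℕ, GG = (range (⌊T * x⌋₊ + 1)).filter (fun N : ℕ =>
      θ * x ≤ (N : ℝ) ∧ R ∣ N ∧ ∃ v ∈ 𝓗, 1 < wc w v N ∧
        ∀ y : ℕ, y ≤ L → (N + y).Prime → ∃ i, v i = y) := ⟨_, rfl⟩
  have hF3 : ∑ N ∈ Tx x, gw x N * ((𝓗.filter (fun u => P3 u N)).card : ℝ) ≤ K * (GG.card : ℝ) := by
    have h1 : ∑ N ∈ Tx x, gw x N * ((𝓗.filter (fun u => P3 u N)).card : ℝ) ≤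
        ∑ N ∈ Tx x, if N ∈ GG then (K : ℝ) else 0 := by
      refine sum_le_sum fun N hN => ?_
      by_cases hex : ∃ u ∈ 𝓗, P3 u N
      · obtain ⟨u, hu, hu3⟩ := hex
        have hle : (𝓗.filter (fun u => P3 u N)).card ≤ K := by
          rw [hP3] at hu3
          have hsub : 𝓗.filter (fun u => P3 u N) ⊆
              (univ : Finset ((Fin m × Fin s) → (Fin m × Fin s))).image (fun σ => u ∘ σ) := by
            intro u1 h1
            rw [mem_filter, hP3] at h1
            obtain ⟨h1m, -, -, h1r, -, -⟩ := h1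
            have h1l := (mem_IJ.1 (h𝓗 u1 h1m).1).1
            have hch : ∀ i, ∃ i', u i' = u1 i := fun i => hu3.2.2.2.2 _ (h1l i) (h1r i)
            choose σ hσ using hch
            rw [mem_image]
            exact ⟨σ, mem_univ _, funext hσ⟩
          refine (card_le_card hsub).trans (card_image_le.trans (le_of_eq ?_))
          rw [hK, card_univ]
        have hG : N ∈ GG := by
          rw [hP3] at hu3
          obtain ⟨h1, h2, h3, h4, h5⟩ := hu3
          rw [hGG, mem_filter, mem_range, Nat.lt_succ_iff]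
          refine ⟨Nat.le_floor h1.2, h1.1, h2, u, hu, h4, fun y hy hp => ?_⟩
          exact h5 y hy (main_rough (by linarith) ha1 hN hp)
        rw [if_pos hG]
        have h6 : ((𝓗.filter (fun u => P3 u N)).card : ℝ) ≤ K := by exact_mod_cast hle
        calc gw x N * ((𝓗.filter (fun u => P3 u N)).card : ℝ) ≤ 1 * K :=
              mul_le_mul (gw_le_one x N) h6 (Nat.cast_nonneg _) zero_le_one
          _ = K := one_mul _
      · have h7 : 𝓗.filter (fun u => P3 u N) = ∅ := by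
          rw [filter_eq_empty_iff]
          intro u hu hu3
          exact hex ⟨u, hu, hu3⟩
        rw [h7, card_empty, Nat.cast_zero, mul_zero]
        split_ifs <;> positivity
    refine h1.trans ?_
    rw [← sum_filter, sum_const, nsmul_eq_mul, mul_comm]
    refine mul_le_mul_of_nonneg_left ?_ hKr.le
    exact_mod_cast card_le_card (fun N hN => (mem_filter.1 hN).2)
  have h8 : c0 * c / 2 * Y ≤ K * (GG.card : ℝ) := by linarith
  rw [← hGG]
  have h9 : c0 * c / (2 * K) * (L / Real.log x) ^ (m * s) * x = (c0 * c / 2 * Y) / K := by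
    rw [hY, div_pow]
    field_simp
  rw [h9, div_le_iff₀ hKr]
  linarith

open Classical in
/-- one configuration -/
theorem sieveF (m : ℕ) (hm : 1 ≤ m) : ∃ s wd H0 : ℕ, 1 ≤ s ∧ ∀ w : Fin m → ℝ, (∀ d, 0 ≤ w d) → 100 ≤ ∑ d, w d →
    ∀ R : ℕ, 0 < R → primorial wd ∣ R → ∀ L : ℕ, H0 ≤ L → ∀ v : Fin m × Fin s → ℕ, v ∈ IJ (Fin m × Fin s) L →
      (∀ i, Nat.Coprime (v i) R) → ∃ δ θ T : ℝ, 0 < δ ∧ 0 < θ ∧ 1 ≤ T ∧ ∀ᶠ x : ℝ in atTop,
        δ / Real.log x ^ (m * s) * x ≤ (((range (⌊T * x⌋₊ + 1)).filter (fun N : ℕ =>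
          θ * x ≤ (N : ℝ) ∧ R ∣ N ∧ 1 < wc w v N ∧
            ∀ y : ℕ, y ≤ L → (N + y).Prime → ∃ i, v i = y)).card : ℝ) := by
  obtain ⟨s, wd, H0, hs, hH0, h⟩ := sieveE' m hm
  refine ⟨s, wd, ⌈H0⌉₊, hs, fun w hw hw1 R hR hRw L hL v hv hvR => ?_⟩
  have hLH : H0 ≤ L := (Nat.le_ceil H0).trans (by exact_mod_cast hL)
  have hL0 : (0 : ℝ) < L := by linarith
  obtain ⟨lam0, δ, θ, T, hlam, _, hδ, hθ, hT, hx⟩ := h w hw hw1 R hR hRw (1 / (L : ℝ) ^ (m * s)) (by positivity)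
  refine ⟨δ * (L : ℝ) ^ (m * s), θ, T, by positivity, hθ, hT, ?_⟩
  filter_upwards [hx, Real.tendsto_log_atTop.eventually_ge_atTop (L / lam0)] with x hx hx2
  have h1 := hx L hLH (by
    rw [div_le_iff₀ hlam] at hx2
    linarith) {v} (by
      intro u hu
      rw [mem_singleton] at hu
      rw [hu]
      exact ⟨hv, hvR⟩) (by
      rw [card_singleton, Nat.cast_one, one_div, inv_mul_cancel₀ (by positivity)])
  refine le_trans (le_of_eq ?_) (h1.trans (Nat.cast_le.2 (card_le_card ?_)))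
  · rw [div_pow]
    ring
  · intro N hN
    rw [mem_filter] at hN ⊢
    obtain ⟨h2, h3, h4, u, hu, h5, h6⟩ := hN
    rw [mem_singleton] at hu
    rw [hu] at h5 h6
    exact ⟨h2, h3, h4, h5, h6⟩

end Pool.Agent.H34.EY
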