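import Pool.Agent.H62.EX.Bx
import Pool.Agent.H34.EY.InfA

/-!
# [H34 EY RESV2] Draft of the Results file BohrTuples, version 2

(2) boxes at every scale up to `(log M) ^ A`; (3) the infinite clause with counts.  Clause (1) (bounded dilation at every scale)
will be added when H48/EP is complete.
-/

set_option autoImplicit false

namespace Pool.Agent.H34.EY.ResV2

open Finset

/-- `p`, `p + a_1`, .., `p + a_k` are primes of colour `q`, congruent to `s` modulo `W`; if `0 = a_0`, then for every `i ∈ G`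
no number strictly between `p + a_i` and `p + a_(i+1)` is a prime of colour `q` -/
def Shows {k r : ℕ} (W s : ℕ) (χ : ℕ → Fin r) (q : Fin r) (G : Finset (Fin k)) (a : Fin k → ℕ) (p : ℕ) : Prop :=
  (∀ j, (p + (Fin.cons 0 a : Fin (k + 1) → ℕ) j).Prime ∧ χ (p + (Fin.cons 0 a : Fin (k + 1) → ℕ) j) = q ∧
    p + (Fin.cons 0 a : Fin (k + 1) → ℕ) j ≡ s [MOD W]) ∧
  ∀ i ∈ G, ∀ y : ℕ, p + (Fin.cons 0 a : Fin (k + 1) → ℕ) i.castSucc < y →
    y < p + (Fin.cons 0 a : Fin (k + 1) → ℕ) i.succ → ¬ (y.Prime ∧ χ y = q)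

/-- at most one pair of adjacent gaps -/
def OnePair {k : ℕ} (G : Finset (Fin k)) : Prop :=
  ∀ i ∈ G, ∀ i' ∈ G, ∀ l ∈ G, ∀ l' ∈ G, i.succ = i'.castSucc → l.succ = l'.castSucc → i = l

/-- the number of `n < M` such that the `n`-th prime shows the pattern -/
noncomputable def count {k r : ℕ} (W s : ℕ) (χ : ℕ → Fin r) (q : Fin r) (G : Finset (Fin k)) (a : Fin k → ℕ) (M : ℕ) : ℕ :=
  {n : ℕ | n < M ∧ Shows W s χ q G a (Nat.nth Nat.Prime n)}.ncard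

/-- for every `G` with at most one pair of adjacent gaps (only for the empty `G` if `L` exceeds `c log M`) there is a colour `q`
with at least `d min(1, L / log M) ^ D * M / (log M) ^ k` patterns below the `M`-th prime -/
def Good {k r : ℕ} (W s : ℕ) (χ : ℕ → Fin r) (D : ℕ) (c d : ℝ) (M L : ℕ) (a : Fin k → ℕ) : Prop :=
  ∀ G : Finset (Fin k), OnePair G → (c * Real.log M < L → G = ∅) →
    ∃ q : Fin r, d * min 1 (L / Real.log M) ^ D * M ≤ Real.log M ^ k * count W s χ q G a M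

open Classical in
theorem result : ∀ k r : ℕ, 1 ≤ k → ∃ D : ℕ, ∀ W s : ℕ, 0 < W → Nat.Coprime s W →
    (∀ (A : ℕ) (F : ℕ → ℝ), (∀ q, 0 < F q) → ∃ (Q L₀ : ℕ) (c d : ℝ), 0 < c ∧ 0 < d ∧
      ∀ (χ : ℕ → Fin r) (M L : ℕ), L₀ ≤ L → (L : ℝ) ≤ Real.log M ^ A →
        ∃ (q : ℕ) (α : Fin q → ℝ), 1 ≤ q ∧ q ≤ Q ∧
          (((Fintype.piFinset (fun _ : Fin k => Icc 1 (L / q))).filter (fun a : Fin k → ℕ => StrictMono a ∧
            (∀ j i, ∃ n : ℤ, |(a j : ℝ) * α i - n| ≤ 1 / q) ∧ ¬ Good W s χ D c d M L a)).card : ℝ) ≤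
              F q * (L : ℝ) ^ k) ∧
    ∀ (χ : ℕ → Fin r) (𝓜₀ : Set ℕ), 𝓜₀.Infinite → ∃ 𝓜 : Set ℕ, 𝓜 ⊆ 𝓜₀ ∧ 𝓜.Infinite ∧
      ∃ (J : ℕ) (α : Fin J → ℝ) (ρ : ℝ), 0 < ρ ∧ ∀ ε : ℝ, 0 < ε → ∃ X₀ : ℕ, ∀ (z : ℕ) (b : Fin k → ℕ), X₀ ≤ z →
        (((Fintype.piFinset (fun j : Fin k => Icc (b j + 1) (b j + z))).filter (fun a : Fin k → ℕ => StrictMono a ∧
          (∀ j i, ∃ n : ℤ, |(a j : ℝ) * α i - n| < ρ) ∧
          ¬ ∀ G : Finset (Fin k), OnePair G → ∃ (q : Fin r) (c : ℝ) (M₁ : ℕ), 0 < c ∧ ∀ M ∈ 𝓜, M₁ ≤ M →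
            c * M ≤ Real.log M ^ D * count W s χ q G a M)).card : ℝ) ≤ ε * (z : ℝ) ^ k := by
  intro k r hk
  obtain ⟨D1, h1⟩ := Pool.Agent.H62.EX.boxW k r hk
  obtain ⟨D2, h2⟩ := thm_inf k r hk
  refine ⟨D1 + D2, fun W s hW hs => ⟨fun A F hF => ?_, fun χ 𝓜₀ h𝓜₀ => ?_⟩⟩
  · obtain ⟨Q, L₀, c, d, hc, hd, h⟩ := h1 A W s hW hs F hF
    refine ⟨Q, L₀, c, d, hc, hd, fun χ M L hL hLM => ?_⟩
    obtain ⟨q, α, hq1, hq2, hq3⟩ := h χ M L hL hLM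
    have hq0 : (0 : ℝ) < q := by exact_mod_cast hq1
    refine ⟨q, α, hq1, hq2, le_trans (Nat.cast_le.2 (card_le_card ?_)) hq3⟩
    intro a ha
    unfold Pool.Agent.H62.EX.BBox
    rw [mem_filter] at ha ⊢
    obtain ⟨ha1, ha2, ha3, ha4⟩ := ha
    refine ⟨ha1, ha2, fun j i => ?_, fun hg => ha4 ?_⟩
    · obtain ⟨n, hn⟩ := ha3 j i
      refine ⟨n, ?_⟩
      rw [le_div_iff₀ hq0] at hn
      exact hn
    · intro G hG hG2
      obtain ⟨q', hq'⟩ := hg G hG hG2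
      refine ⟨q', le_trans ?_ hq'⟩
      have h3 : 0 ≤ min 1 ((L : ℝ) / Real.log M) :=
        le_min zero_le_one (div_nonneg (Nat.cast_nonneg _) (Real.log_natCast_nonneg M))
      exact mul_le_mul_of_nonneg_right (mul_le_mul_of_nonneg_left
        (pow_le_pow_of_le_one h3 (min_le_left _ _) (Nat.le_add_right _ _)) hd.le) (Nat.cast_nonneg _)
  · obtain ⟨𝓜, hM1, hM2, J, α, ρ, hρ, h⟩ := h2 W s hW hs χ 𝓜₀ h𝓜₀
    refine ⟨𝓜, hM1, hM2, J, α, ρ, hρ, fun ε hε => ?_⟩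
    obtain ⟨X₀, hX⟩ := h ε hε
    refine ⟨X₀, fun z b hz => le_trans (Nat.cast_le.2 (card_le_card ?_)) (hX z b hz)⟩
    intro a ha
    rw [mem_filter] at ha ⊢
    obtain ⟨ha1, ha2, ha3, ha4⟩ := ha
    refine ⟨ha1, ha2, ha3, fun hg => ha4 fun G hG => ?_⟩
    obtain ⟨q, c, M₁, hc, hM⟩ := hg G hG
    refine ⟨q, c, max M₁ 3, hc, fun M hM' hMM => ?_⟩
    have h3 : (3 : ℝ) ≤ M := by exact_mod_cast (le_max_right _ _).trans hMM
    have h4 : 1 ≤ Real.log M := by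
      rw [Real.le_log_iff_exp_le (by linarith)]
      linarith [Real.exp_one_lt_d9]
    refine (hM M hM' ((le_max_left _ _).trans hMM)).trans ?_
    exact mul_le_mul_of_nonneg_right (pow_le_pow_right₀ h4 (Nat.le_add_left _ _)) (Nat.cast_nonneg _)

end Pool.Agent.H34.EY.ResV2
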